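import Pool.Agent.U337.EM.Stm

set_option autoImplicit false

/-!
Project EM: assembly.
-/

open MvPolynomial

namespace Pool.Agent.U337.EM

/-- the liftable vector fields form a submodule -/
noncomputable def liftSub {F : Type} [Field F] {d : ℕ} {M : Type} [AddCommGroup M] [Module F M]
    [Module (Sy F d) M] [IsScalarTower F (Sy F d) M] (pr : M →ₗ[Sy F d] Sy F d) :
    Submodule (Sy F d) (Fin d → Sy F d) where
  carrier := {Y | Lifts pr Y}
  zero_mem' := ⟨0, fun s m => by simp, fun m => by simp⟩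
  add_mem' := by
    rintro Y Y' ⟨D, h1, h2⟩ ⟨D', h1', h2'⟩
    refine ⟨D + D', fun s m => ?_, fun m => ?_⟩
    · rw [LinearMap.add_apply, LinearMap.add_apply, h1, h1', smul_add]
      simp only [Pi.add_apply, add_mul, Finset.sum_add_distrib, add_smul]
      abel
    · rw [LinearMap.add_apply, map_add, h2, h2']
      simp only [Pi.add_apply, add_mul, Finset.sum_add_distrib]
  smul_mem' := by
    rintro c Y ⟨D, h1, h2⟩
    refine ⟨(Algebra.lsmul F F M c).comp D, fun s m => ?_, fun m => ?_⟩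
    · simp only [LinearMap.comp_apply, Algebra.lsmul_coe, h1, smul_add, Pi.smul_apply, smul_eq_mul,
        mul_assoc, ← Finset.mul_sum]
      rw [smul_smul, smul_smul, smul_smul, mul_comm c s]
    · simp only [LinearMap.comp_apply, Algebra.lsmul_coe, map_smul, h2, smul_eq_mul, Pi.smul_apply,
        mul_assoc, ← Finset.mul_sum]

theorem assembly (hFQ : S_FQ) (hZ : S_Z) (hGR : S_GR) (hB : S_B) (hC : S_C) (hG : S_G) (hI : S_I) :
    S_R := by
  intro F _ _ L _ _ _ hmet H _ _ hU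
  obtain ⟨d, abL, abH, hL, hH⟩ := hZ F L H hU
  obtain ⟨ML, i1, i2, i3, i4, ⟨fL⟩⟩ := hFQ F L d abL hL
  obtain ⟨MH, j1, j2, j3, j4, ⟨fH⟩⟩ := hFQ F H d abH hH
  obtain ⟨f, f', hf0, hf0', hff, hff', ⟨Φ, hΦ1, hΦ2⟩, hlift⟩ :=
    hC F L H d abL abH hL hH ML MH fL fH hU
  obtain ⟨K, Y, hY1, hY2, hY3⟩ := hB F d f f' hf0 hf0' hff hff' (liftSub fH.pr) hlift
  have hs : ∀ i, ∃ m, fH.pr m = X i := by
    intro i
    obtain ⟨x, hx⟩ := hH.1 (Pi.single i 1)
    refine ⟨fH.io x, ?_⟩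
    rw [fH.h1, lf, hx]
    rw [Finset.sum_eq_single i]
    · simp
    · intro j _ hj
      simp [Pi.single_eq_of_ne hj]
    · intro h
      exact absurd (Finset.mem_univ i) h
  obtain ⟨Θ, h1, h2, h3⟩ := hG F L d abL hL ML MH fL fH.pr f f' Φ K Y hf0 hff' hΦ1 hΦ2 hs hY1 hY2 hY3
  exact hI F L H d abL abH hL hH hmet ML MH fL fH f f' Φ hf0 hf0' hff hff' hΦ2 (hGR F L H hU) Θ h1 h2 h3

end Pool.Agent.U337.EM
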