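import Pool.Agent.U337.EM.G3

set_option autoImplicit false
set_option linter.unusedSectionVars false

/-!
Project EM, package G, part 4: the main step.
-/

namespace Pool.Agent.U337.EM.GG

open MvPolynomial

attribute [local instance] modT

section lin

variable {F : Type} [Field F] {L : Type} [LieRing L] [LieAlgebra F L] {d : ℕ}

/-- the linear form as a linear map -/
noncomputable def lfL (ab : L →ₗ[F] (Fin d → F)) : L →ₗ[F] Sy F d where
  toFun := lf ab
  map_add' x y := by
    simp only [lf, map_add, Pi.add_apply, add_mul, Finset.sum_add_distrib]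
  map_smul' c x := by
    simp only [lf, map_smul, Pi.smul_apply, smul_eq_mul, map_mul, mul_assoc, RingHom.id_apply,
      Algebra.smul_def, MvPolynomial.algebraMap_eq, Finset.mul_sum]

lemma lf_of_ab {ab : L →ₗ[F] (Fin d → F)} {x : L} (h : ab x = 0) : lf ab x = 0 := by
  simp [lf, h]

lemma lf_lie {ab : L →ₗ[F] (Fin d → F)} (h : IsAb ab) (x y : L) : lf ab ⁅x, y⁆ = 0 :=
  lf_of_ab ((h.2 _).2 (Submodule.subset_span ⟨x, y, rfl⟩))

end lin

theorem t_G (hPM : S_PM) (hO : S_O) (hDT : S_DT) : S_G := by
  classical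
  intro F _ _ L _ _ _ d abL hL ML MH _ _ _ _ _ _ _ _ fL prH f f' Φ K Y hf0 hff hΦ1 hΦ2 hsur hlift hK hY
  -- the connection
  have hD : ∀ j : Fin K, ∃ D : MH →ₗ[F] MH, (∀ (s : Sy F d) (m : MH), D (s • m) = s • D m +
      del Y j s • m) ∧ ∀ m, prH (D m) = del Y j (prH m) := by
    intro j
    obtain ⟨D, h1, h2⟩ := hlift j
    refine ⟨D, fun s m => ?_, fun m => ?_⟩
    · rw [h1, del_apply]
    · rw [h2, del_apply]
  choose D hD1 hD2 using hD
  obtain ⟨nM, nS, prt, p1, p2, p3, p4, p5, p6, -⟩ := hPM F (Sy F d) MH prH K (fun j => del Y j) D hD1 hD2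
  have h4 := nS_map Y K hK nS p3 p5 p6
  -- the ring map and the linear map
  set gS : Sy F d →ₐ[F] Polynomial (Sy F d) := aeval (fam f) with hgS
  set g : L →ₗ[F] Polynomial (Sy F d) := gS.toLinearMap.comp (lfL abL) with hg
  have hgx : ∀ x, g x = gS (lf abL x) := fun _ => rfl
  have hglie : ∀ x y : L, g ⁅x, y⁆ = 0 := by
    intro x y
    rw [hgx, lf_lie hL, map_zero]
  have h5 : ∀ x, nS (g x) = 0 := fun x => nS_aeval Y K hK nS p3 p5 p6 f hY _
  have hev1 : ∀ s, (gS s).eval 1 = aeval f s := by
    intro s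
    have h : ((Polynomial.evalRingHom (1 : Sy F d)).comp gS.toRingHom) = (aeval f : Sy F d →ₐ[F] Sy F d).toRingHom := by
      apply MvPolynomial.ringHom_ext
      · intro c
        simp [hgS, Polynomial.algebraMap_apply]
      · intro i
        simp only [hgS, RingHom.comp_apply, AlgHom.toRingHom_eq_coe, RingHom.coe_coe, aeval_X,
          Polynomial.coe_evalRingHom]
        exact fam_eval_one f hf0 i
    exact RingHom.congr_fun h s
  have hev0 : ∀ s, (gS s).eval 0 = aeval (lin f) s := by
    intro s
    have h : ((Polynomial.evalRingHom (0 : Sy F d)).comp gS.toRingHom) = (aeval (lin f) : Sy F d →ₐ[F] Sy F d).toRingHom := by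
      apply MvPolynomial.ringHom_ext
      · intro c
        simp [hgS, Polynomial.algebraMap_apply]
      · intro i
        simp only [hgS, RingHom.comp_apply, AlgHom.toRingHom_eq_coe, RingHom.coe_coe, aeval_X,
          Polynomial.coe_evalRingHom]
        rw [← Polynomial.coeff_zero_eq_eval_zero, fam_coeff]
        rfl
    exact RingHom.congr_fun h s
  set bas := Module.finBasis F L with hbas
  -- the kernels
  set A' : Submodule F ML := (LinearMap.ker fL.pr).restrictScalars F with hA'
  have hA'le : A' ≤ LinearMap.range fL.io := by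
    intro m hm
    obtain ⟨x, hx⟩ := fL.h5 m hm
    exact ⟨x, hx⟩
  have : Module.Finite F A' := Submodule.finiteDimensional_of_le hA'le
  set r := Module.finrank F A' with hr
  set ba' := Module.finBasis F A' with hba'
  set bα : Module.Basis (Fin r) F (A'.map (Φ : ML →ₗ[F] MH)) := ba'.map (Φ.submoduleMap A') with hbα
  set α : Fin r → MH := fun k => (bα k : MH) with hα
  have hαΦ : ∀ k, α k = Φ (ba' k) := by
    intro k
    simp only [hα, hbα, Module.Basis.map_apply]
    rfl
  have hmapA : ∀ y, prH y = 0 → y ∈ A'.map (Φ : ML →ₗ[F] MH) := by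
    intro y hy
    refine ⟨Φ.symm y, ?_, Φ.apply_symm_apply y⟩
    change fL.pr (Φ.symm y) = 0
    have h := hΦ2 (Φ.symm y)
    rw [Φ.apply_symm_apply, hy] at h
    have h' := congrArg (aeval f' : Sy F d →ₐ[F] Sy F d) h
    rw [map_zero] at h'
    have h'' : (aeval f' : Sy F d →ₐ[F] Sy F d) (aeval f (fL.pr (Φ.symm y))) = fL.pr (Φ.symm y) := by
      have hc : ((aeval f' : Sy F d →ₐ[F] Sy F d).comp (aeval f)) = AlgHom.id F _ := by
        apply MvPolynomial.algHom_ext
        intro i
        rw [AlgHom.comp_apply, aeval_X, hff]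
        rfl
      exact AlgHom.congr_fun hc _
    rw [h''] at h'
    exact h'.symm
  have hα0 : ∀ k, prH (α k) = 0 := by
    intro k
    rw [hαΦ, hΦ2, show fL.pr (ba' k : ML) = 0 from (ba' k).2, map_zero]
  have hl : ∀ k, ∃ l : MH →ₗ[F] F, ∀ y : A'.map (Φ : ML →ₗ[F] MH), l y = bα.coord k y := by
    intro k
    obtain ⟨l, hl⟩ := LinearMap.exists_extend (bα.coord k)
    exact ⟨l, fun y => LinearMap.congr_fun hl y⟩
  choose l hl using hl
  have hlα : ∀ k j, l k (α j) = if j = k then 1 else 0 := by
    intro k j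
    rw [hα, hl k (bα j), Module.Basis.coord_apply, Module.Basis.repr_self, Finsupp.single_apply]
  have hrec : ∀ y, prH y = 0 → y = ∑ k, l k y • α k := by
    intro y hy
    have h := bα.sum_repr ⟨y, hmapA y hy⟩
    have h' := congrArg Subtype.val h
    simp only [Submodule.coe_sum, Submodule.coe_smul] at h'
    rw [← h']
    refine Finset.sum_congr rfl fun k _ => ?_
    have h'' : l k y = bα.repr ⟨y, hmapA y hy⟩ k := by
      rw [← Module.Basis.coord_apply, ← hl k]
    rw [h', h'']
  have : Module.Finite (Polynomial F) (At (F := F) prt) := finite_At prH prt α l hrec hα0 p1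
  -- representatives of the basis of A'
  have hx' : ∀ k, ∃ x : L, fL.io x = ba' k := fun k => fL.h5 _ (ba' k).2
  choose x' hx' using hx'
  have hgx' : ∀ k, g (x' k) = 0 := by
    intro k
    rw [hgx, ← fL.h1, hx', show fL.pr (ba' k : ML) = 0 from (ba' k).2, map_zero]
  -- the initial family
  have hm : ∀ i, ∃ m : PolynomialModule (Sy F d) MH, prt m = fam f i := by
    intro i
    choose e he using hsur
    -- every polynomial without constant term is in the range of prH
    have hran : ∀ s : Sy F d, constantCoeff s = 0 → ∃ m, prH m = s := by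
      intro s hs
      have hmem : s ∈ idealOfVars (Fin d) F := by
        rw [← pow_one (idealOfVars (Fin d) F), mem_pow_idealOfVars_iff']
        intro x hx
        have hx0 : x = 0 := (Finsupp.degree_eq_zero_iff x).1 (by omega)
        rw [hx0]
        exact hs
      have hle : Ideal.span (Set.range (X : Fin d → Sy F d)) ≤ LinearMap.range prH := by
        rw [Ideal.span, Submodule.span_le]
        rintro _ ⟨i, rfl⟩
        exact ⟨e i, he i⟩
      exact hle hmem
    have hcc : ∀ j, constantCoeff (homogeneousComponent (j + 1) (f i)) = 0 := by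
      intro j
      rw [constantCoeff_eq, coeff_homogeneousComponent, if_neg]
      simp
    choose c hc using fun j => hran _ (hcc j)
    refine ⟨∑ j ∈ Finset.range ((f i).totalDegree + 1), PolynomialModule.single (Sy F d) j (c j), ?_⟩
    rw [map_sum]
    unfold fam
    refine Finset.sum_congr rfl fun j _ => ?_
    rw [p1, hc]
  choose mi hmi using hm
  let b0 : Fin (Module.finrank F L) → PolynomialModule (Sy F d) MH := fun a =>
    (∑ i, (Polynomial.C (abL (bas a) i) : Polynomial F) • mi i) + PolynomialModule.single (Sy F d) 0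
      (Φ (fL.io (bas a)) - ∑ i, abL (bas a) i • PolynomialModule.eval (algebraMap F (Sy F d) 1) (mi i))
  have hb0 : ∀ a, prt (b0 a) = ((1 : Polynomial F).map (algebraMap F (Sy F d))) * g (bas a) := by
    intro a
    simp only [b0, map_add, map_sum, p1, map_sub]
    have e1 : ∀ i, prt ((Polynomial.C (abL (bas a) i) : Polynomial F) • mi i) =
        Polynomial.C (C (abL (bas a) i)) * fam f i := by
      intro i
      rw [smulT, map_smul, hmi, Polynomial.map_C]
      rfl
    have e2 : g (bas a) = ∑ i, Polynomial.C (C (abL (bas a) i)) * fam f i := by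
      rw [hgx, lf, map_sum]
      refine Finset.sum_congr rfl fun i _ => ?_
      rw [map_mul, hgS, aeval_X, aeval_C, Polynomial.algebraMap_apply]
      rfl
    have e3 : prH (Φ (fL.io (bas a))) = ∑ i, C (abL (bas a) i) * f i := by
      rw [hΦ2, fL.h1, lf, map_sum]
      refine Finset.sum_congr rfl fun i _ => ?_
      rw [map_mul, aeval_X, aeval_C]
      rfl
    have e4 : ∀ i, prH (abL (bas a) i • PolynomialModule.eval (algebraMap F (Sy F d) 1) (mi i)) =
        C (abL (bas a) i) * f i := by
      intro i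
      rw [LinearMap.map_smul_of_tower, prt_eval prH prt p1, hmi, map_one, fam_eval_one f hf0,
        Algebra.smul_def]
      rfl
    rw [Finset.sum_congr rfl fun i _ => e1 i, e2, e3]
    simp only [e4, map_sum]
    simp
  have hb01 : ∀ a, PolynomialModule.eval (algebraMap F (Sy F d) 1) (b0 a) = Φ (fL.io (bas a)) := by
    intro a
    simp only [b0, map_add, map_sum]
    rw [Finset.sum_congr rfl fun i _ => eval_smulT (1 : F) (Polynomial.C (abL (bas a) i)) (mi i)]
    rw [PolynomialModule.eval_single, pow_zero, one_smul]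
    simp only [Polynomial.eval_C]
    abel
  have hbx1 : ∀ (b : Fin (Module.finrank F L) → PolynomialModule (Sy F d) MH),
      (∀ a, PolynomialModule.eval (algebraMap F (Sy F d) 1) (b a) = Φ (fL.io (bas a))) →
      ∀ x, PolynomialModule.eval (algebraMap F (Sy F d) 1) (bx bas b x) = Φ (fL.io x) := by
    intro b hb x
    rw [bx_eval, Finset.sum_congr rfl fun a _ => by rw [hb a]]
    conv_rhs => rw [← bas.sum_repr x]
    rw [map_sum, map_sum]
    refine Finset.sum_congr rfl fun a _ => ?_
    rw [map_smul, map_smul]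
  let P0 : PP bas prt g := ⟨((1 : Polynomial F), b0), hb0⟩
  obtain ⟨P1, hP1, hP1a, hP1b⟩ := solve bas prt g hglie nM nS p2 p3 p4 h4 h5 hO 1 P0 (by
    intro a a'
    change PolynomialModule.eval (algebraMap F (Sy F d) 1) (bx bas b0 ⁅bas a, bas a'⁆ -
      g (bas a') • b0 a + g (bas a) • b0 a') = 0
    rw [map_add, map_sub, PolynomialModule.eval_smul, PolynomialModule.eval_smul, hb01, hb01,
      hbx1 b0 hb01, hgx, hgx, map_one, hev1, hev1, fL.h2, map_sub, hΦ1, hΦ1]
    abel)
  have hP1b' : ∀ a, PolynomialModule.eval (algebraMap F (Sy F d) 1) (P1.1.2 a) = Φ (fL.io (bas a)) :=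
    fun a => (hP1b a).trans (hb01 a)
  have hP1a' : P1.1.1.eval 1 = 1 := by
    rw [hP1a]
    exact Polynomial.eval_one
  -- the matrices
  let Bm : PP bas prt g →ₗ[Polynomial F] Matrix (Fin r) (Fin r) (Polynomial F) :=
    { toFun := fun p => Matrix.of fun k j => cT (S := Sy F d) (l k) (bx bas p.1.2 (x' j))
      map_add' := by
        intro p q
        ext1 k j
        change cT (S := Sy F d) (l k) (bx bas (p.1.2 + q.1.2) (x' j)) = _
        rw [bx_add', map_add]
        rfl
      map_smul' := by
        intro c p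
        ext1 k j
        change cT (S := Sy F d) (l k) (bx bas (c • p.1.2) (x' j)) = _
        rw [bx_smul', map_smul]
        rfl }
  have hBm : ∀ p k j, Bm p k j = cT (S := Sy F d) (l k) (bx bas p.1.2 (x' j)) := fun _ _ _ => rfl
  let 𝔻 : Matrix (Fin r) (Fin r) (Polynomial F) := Matrix.of fun k j =>
    - cT (S := Sy F d) (l k) (nM (PolynomialModule.single (Sy F d) 0 (α j)))
  have hcon : ∀ p : PP bas prt g, Bm (nP bas prt g nM nS p3 p4 h4 h5 p) =
      (Bm p).map Polynomial.derivative - 𝔻 * Bm p := by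
    intro p
    ext1 k j
    rw [Matrix.sub_apply, Matrix.map_apply, Matrix.mul_apply, hBm]
    change cT (S := Sy F d) (l k) (bx bas (fun a => nM (p.1.2 a)) (x' j)) = _
    rw [← nM_bx bas nM nS p2 h4]
    have hprt0 : prt (bx bas p.1.2 (x' j)) = 0 := by
      rw [prt_bx, hgx', mul_zero]
    have hrc := recon prH prt α l hrec p1 _ hprt0
    conv_lhs => rw [hrc]
    rw [map_sum, map_sum]
    have e : ∀ i, cT (S := Sy F d) (l k) (nM (cT (S := Sy F d) (l i) (bx bas p.1.2 (x' j)) •
        PolynomialModule.single (Sy F d) 0 (α i))) =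
        (if i = k then Polynomial.derivative (Bm p i j) else 0) - 𝔻 k i * Bm p i j := by
      intro i
      rw [nM_smul nM nS p2 h4, map_add, map_smul, map_smul, cT_single, hlα, hBm]
      simp only [𝔻, Matrix.of_apply, smul_eq_mul]
      split_ifs
      · rw [Polynomial.monomial_zero_left, Polynomial.C_1]
        ring
      · rw [map_zero]
        ring
    rw [Finset.sum_congr rfl fun i _ => e i, Finset.sum_sub_distrib, Finset.sum_ite_eq' Finset.univ k,
      if_pos (Finset.mem_univ k)]
  -- the determinants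
  set 𝓑 : Submodule (Polynomial F) (Matrix (Fin r) (Fin r) (Polynomial F)) :=
    (LinearMap.ker (TT bas prt g hglie)).map Bm with h𝓑
  obtain ⟨B, ⟨P2, hP2, rfl⟩, hP2d⟩ := hDT F r 𝓑 𝔻 (by
    rintro B ⟨p, hp, rfl⟩
    refine ⟨nP bas prt g nM nS p3 p4 h4 h5 p, ?_, hcon p⟩
    exact nP_sol bas prt g hglie nM nS p2 p3 p4 h4 h5 p hp) (Bm P1) ⟨P1, hP1, rfl⟩ (by
    intro hdet
    have h := congrArg (Polynomial.eval (1 : F)) hdet
    rw [Polynomial.eval_zero, ← Polynomial.coe_evalRingHom, RingHom.map_det] at h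
    have h1 : (Polynomial.evalRingHom (1 : F)).mapMatrix (Bm P1) = 1 := by
      ext1 k j
      rw [RingHom.mapMatrix_apply, Matrix.map_apply, hBm, Polynomial.coe_evalRingHom, cT_eval,
        hbx1 _ hP1b', hx', ← hαΦ, hlα, Matrix.one_apply]
      by_cases hkj : k = j
      · rw [if_pos hkj, if_pos hkj.symm]
      · rw [if_neg hkj, if_neg (fun h => hkj h.symm)]
    rw [h1, Matrix.det_one] at h
    exact one_ne_zero h) 0
  obtain ⟨_, ⟨P3, hP3, rfl⟩, hP3d⟩ := hDT F 1 ((LinearMap.ker (TT bas prt g hglie)).map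
      ({ toFun := fun p => Matrix.of fun _ _ => p.1.1
         map_add' := fun _ _ => rfl
         map_smul' := fun _ _ => rfl } : PP bas prt g →ₗ[Polynomial F] Matrix (Fin 1) (Fin 1) (Polynomial F))) 0 (by
    rintro B ⟨p, hp, rfl⟩
    refine ⟨nP bas prt g nM nS p3 p4 h4 h5 p, ?_, ?_⟩
    · exact nP_sol bas prt g hglie nM nS p2 p3 p4 h4 h5 p hp
    · ext1 k j
      rw [Matrix.zero_mul, sub_zero]
      rfl) _ ⟨P1, hP1, rfl⟩ (by
    intro hdet
    rw [Matrix.det_fin_one] at hdet
    have h : P1.1.1 = 0 := hdet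
    rw [h, Polynomial.eval_zero] at hP1a'
    exact zero_ne_one hP1a') 0
  have hP3e : P3.1.1.eval 0 ≠ 0 := by
    rw [Matrix.det_fin_one] at hP3d
    exact hP3d
  -- a common solution
  obtain ⟨c, hc1, hc2⟩ : ∃ c : F, (P2.1.1 + Polynomial.C c * P3.1.1).eval 0 ≠ 0 ∧
      (Bm (P2 + Polynomial.C c • P3)).det.eval 0 ≠ 0 := by
    let q1 : Polynomial F := Polynomial.C (P2.1.1.eval 0) + Polynomial.C (P3.1.1.eval 0) * Polynomial.X
    let N2 : Matrix (Fin r) (Fin r) F := (Bm P2).map (Polynomial.eval 0)
    let N3 : Matrix (Fin r) (Fin r) F := (Bm P3).map (Polynomial.eval 0)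
    let q2 : Polynomial F := (N2.map Polynomial.C + (Polynomial.X : Polynomial F) • N3.map Polynomial.C).det
    have hq2e : ∀ c : F, q2.eval c = (N2 + c • N3).det := by
      intro c
      simp only [q2]
      rw [← Polynomial.coe_evalRingHom, RingHom.map_det]
      congr 1
      ext k j
      simp
      ring
    have hq1 : q1 ≠ 0 := by
      intro h
      have h1 : q1.coeff 1 = 0 := by rw [h, Polynomial.coeff_zero]
      have h2 : q1.coeff 1 = Polynomial.eval 0 P3.1.1 := by
        simp only [q1]
        rw [Polynomial.coeff_add, Polynomial.coeff_C_succ, Polynomial.coeff_C_mul,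
          Polynomial.coeff_X_one, mul_one, zero_add]
      rw [h2] at h1
      exact hP3e h1
    have hq2 : q2 ≠ 0 := by
      intro h
      have h1 := hq2e 0
      rw [h, Polynomial.eval_zero, zero_smul, add_zero] at h1
      apply hP2d
      rw [← Polynomial.coe_evalRingHom, RingHom.map_det]
      exact h1.symm
    obtain ⟨c, hc⟩ : ∃ c, (q1 * q2).eval c ≠ 0 := by
      by_contra hcon
      push Not at hcon
      exact mul_ne_zero hq1 hq2 (Polynomial.funext fun c => by rw [hcon, Polynomial.eval_zero])
    rw [Polynomial.eval_mul] at hc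
    refine ⟨c, ?_, ?_⟩
    · have := left_ne_zero_of_mul hc
      simp only [q1, Polynomial.eval_add, Polynomial.eval_mul, Polynomial.eval_C, Polynomial.eval_X] at this ⊢
      rw [mul_comm c]
      exact this
    · have h1 := right_ne_zero_of_mul hc
      rw [hq2e] at h1
      rw [← Polynomial.coe_evalRingHom, RingHom.map_det]
      have h2 : (Polynomial.evalRingHom (0 : F)).mapMatrix (Bm (P2 + Polynomial.C c • P3)) = N2 + c • N3 := by
        rw [map_add, map_smul]
        ext k j
        simp [N2, N3]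
      rw [h2]
      exact h1
  set P4 : PP bas prt g := P2 + Polynomial.C c • P3 with hP4
  have hP4s : TT bas prt g hglie P4 = 0 := by
    rw [hP4, map_add, map_smul, show TT bas prt g hglie P2 = 0 from hP2,
      show TT bas prt g hglie P3 = 0 from hP3, smul_zero, add_zero]
  set lam : F := P4.1.1.eval 0 with hlam
  have hlam0 : lam ≠ 0 := hc1
  -- the map
  let ev : PolynomialModule (Sy F d) MH → MH := fun m => PolynomialModule.eval (algebraMap F (Sy F d) 0) m
  let Θ : L →ₗ[F] MH := bas.constr F (fun a => lam⁻¹ • ev (P4.1.2 a))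
  have hΘ : ∀ x, Θ x = lam⁻¹ • ev (bx bas P4.1.2 x) := by
    intro x
    simp only [Θ, ev, Module.Basis.constr_apply_fintype, bx_eval, Finset.smul_sum]
    refine Finset.sum_congr rfl fun a _ => ?_
    rw [Module.Basis.equivFun_apply, smul_comm]
  have hΘb : ∀ a, Θ (bas a) = lam⁻¹ • ev (P4.1.2 a) := by
    intro a
    rw [hΘ, bx_bas]
  have hpr : ∀ x, prH (Θ x) = aeval (lin f) (lf abL x) := by
    intro x
    rw [hΘ, LinearMap.map_smul_of_tower]
    simp only [ev]
    rw [prt_eval prH prt p1, prt_bx, Polynomial.eval_mul, Polynomial.eval_map, Polynomial.eval₂_at_apply,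
      hgx, map_zero, hev0, ← hlam, Algebra.smul_def, ← mul_assoc, ← map_mul, inv_mul_cancel₀ hlam0,
      map_one, one_mul]
  have hTb : ∀ a a', Θ ⁅bas a, bas a'⁆ = aeval (lin f) (lf abL (bas a')) • Θ (bas a) -
      aeval (lin f) (lf abL (bas a)) • Θ (bas a') := by
    intro a a'
    have h6 : bx bas P4.1.2 ⁅bas a, bas a'⁆ - g (bas a') • P4.1.2 a + g (bas a) • P4.1.2 a' = 0 :=
      congrArg Subtype.val (congrFun (congrFun hP4s a) a')
    have h7 := congrArg ev h6
    simp only [ev, map_add, map_sub, PolynomialModule.eval_smul, map_zero, hgx, hev0] at h7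
    rw [hΘ, hΘb, hΘb]
    simp only [ev, map_zero]
    have h8 : PolynomialModule.eval (0 : Sy F d) (bx bas P4.1.2 ⁅bas a, bas a'⁆) =
        aeval (lin f) (lf abL (bas a')) • PolynomialModule.eval (0 : Sy F d) (P4.1.2 a) -
        aeval (lin f) (lf abL (bas a)) • PolynomialModule.eval (0 : Sy F d) (P4.1.2 a') := by
      rw [← sub_eq_zero, ← h7]
      abel
    rw [h8, smul_sub, smul_comm lam⁻¹, smul_comm lam⁻¹]
  have hlfadd : ∀ x y, lf abL (x + y) = lf abL x + lf abL y := fun x y => (lfL abL).map_add x y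
  have hlfsmul : ∀ (c : F) x, lf abL (c • x) = c • lf abL x := fun c x => (lfL abL).map_smul c x
  have hTall : ∀ x y, Θ ⁅x, y⁆ = aeval (lin f) (lf abL y) • Θ x - aeval (lin f) (lf abL x) • Θ y := by
    intro x y
    have hx : x ∈ Submodule.span F (Set.range bas) := by rw [bas.span_eq]; trivial
    have hy : y ∈ Submodule.span F (Set.range bas) := by rw [bas.span_eq]; trivial
    induction hx using Submodule.span_induction with
    | mem x hx =>
      obtain ⟨a, rfl⟩ := hx
      induction hy using Submodule.span_induction with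
      | mem y hy =>
        obtain ⟨a', rfl⟩ := hy
        exact hTb a a'
      | zero => simp [lf]
      | add y z _ _ ihy ihz =>
        rw [lie_add, map_add, ihy, ihz, hlfadd, map_add, map_add, add_smul, smul_add]
        abel
      | smul c y _ ih =>
        rw [lie_smul, map_smul, ih, hlfsmul, map_smul, map_smul, smul_sub, smul_assoc,
          smul_comm c (aeval (lin f) (lf abL (bas a))) (Θ y)]
    | zero => simp [lf]
    | add x z _ _ ihx ihz =>
      rw [add_lie, map_add, ihx, ihz, hlfadd, map_add, map_add, add_smul, smul_add]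
      abel
    | smul c x _ ih =>
      rw [smul_lie, map_smul, ih, hlfsmul, map_smul, map_smul, smul_sub, smul_assoc, smul_comm c]
  refine ⟨Θ, hTall, hpr, ?_⟩
  -- injectivity on the commutators
  intro x hx hΘx
  obtain ⟨β, hβ1, hβ2⟩ := fL.h3 (Sy F d) MH (lin f) Θ hTall
  have hxA : fL.io x ∈ A' := by
    change fL.pr (fL.io x) = 0
    rw [fL.h1, lf_of_ab hx]
  have hsum := ba'.sum_repr ⟨fL.io x, hxA⟩
  have hsum' := congrArg Subtype.val hsum
  simp only [Submodule.coe_sum, Submodule.coe_smul] at hsum'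
  set cc : Fin r → F := fun j => ba'.repr ⟨fL.io x, hxA⟩ j with hcc
  have h1 : ∑ j, cc j • Θ (x' j) = 0 := by
    rw [← hΘx, ← hβ2 x, ← hsum', map_sum]
    refine Finset.sum_congr rfl fun j _ => ?_
    rw [map_smul, ← hx' j, hβ2]
  have h2 : ((Bm P4).map (Polynomial.eval 0)).mulVec cc = 0 := by
    funext k
    have h3 := congrArg (l k) h1
    rw [map_sum, map_zero] at h3
    rw [Matrix.mulVec, Pi.zero_apply]
    have h4' : ∀ j, l k (cc j • Θ (x' j)) = lam⁻¹ * (((Bm P4).map (Polynomial.eval 0)) k j * cc j) := by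
      intro j
      rw [map_smul, hΘ, map_smul, Matrix.map_apply, hBm, cT_eval, smul_eq_mul, smul_eq_mul]
      ring
    rw [Finset.sum_congr rfl fun j _ => h4' j, ← Finset.mul_sum] at h3
    exact (mul_eq_zero.1 h3).resolve_left (inv_ne_zero hlam0)
  have h3 : cc = 0 := by
    apply Matrix.eq_zero_of_mulVec_eq_zero _ h2
    rw [← Polynomial.coe_evalRingHom, RingHom.map_det] at hc2
    exact hc2
  rw [← hsum']
  refine Finset.sum_eq_zero fun j _ => ?_
  rw [show ba'.repr ⟨fL.io x, hxA⟩ j = 0 from congrFun h3 j, zero_smul]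

end Pool.Agent.U337.EM.GG
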