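import Pool.Agent.U337.EM.Asm
import Pool.Agent.U603.EM.I

/-!
Project EM, addition: the largest metabelian quotients `L / L''` of arbitrary finite-dimensional Lie algebras.
-/

set_option autoImplicit false

open MvPolynomial

namespace Pool.Agent.U337.EM.Q

open Pool.Agent.U337.EM Pool.Agent.U603.EM

section

variable {F : Type} [Field F] {L : Type} [LieRing L] [LieAlgebra F L] {d : ℕ}

theorem lf_eq_zero_iff (ab : L →ₗ[F] (Fin d → F)) (x : L) : lf ab x = 0 ↔ ab x = 0 := by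
  constructor
  · intro h
    funext k
    have h1 := congrArg (Lc k) h
    have h2 : Lc k (lf ab x) = ab x k := by
      unfold Lc lf
      rw [coeff_sum]
      rw [Finset.sum_eq_single k]
      · rw [coeff_C_mul, coeff_X, if_pos rfl, mul_one]
      · intro b _ hb
        rw [coeff_C_mul, coeff_X, if_neg, mul_zero]
        intro h2
        exact hb ((Finsupp.single_left_injective (one_ne_zero)) h2)
      · intro h2
        exact absurd (Finset.mem_univ k) h2
    rw [h2] at h1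
    rw [h1]
    unfold Lc
    rw [coeff_zero]
    rfl
  · intro h
    unfold lf
    rw [h]
    simp

theorem der1 (ab : L →ₗ[F] (Fin d → F)) (hab : IsAb ab) (x : L)
    (hx : x ∈ LieAlgebra.derivedSeries F L 1) : ab x = 0 := by
  rw [hab.2 x]
  have h1 := LieAlgebra.coe_derivedSeries_one_eq F L
  have h2 : x ∈ ((LieAlgebra.derivedSeries F L 1 : LieIdeal F L) : Submodule F L) := hx
  rw [h1] at h2
  exact h2

/-- a linear map which is a crossed homomorphism for linear forms kills the second derived algebra -/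
theorem kill2 {N : Type} [AddCommGroup N] [Module F N] [Module (Sy F d) N]
    (ab : L →ₗ[F] (Fin d → F)) (hab : IsAb ab) (g : Fin d → Sy F d) (Θ : L →ₗ[F] N)
    (h : ∀ x y, Θ ⁅x, y⁆ = aeval g (lf ab y) • Θ x - aeval g (lf ab x) • Θ y)
    (x : L) (hx : x ∈ LieAlgebra.derivedSeries F L 2) : Θ x = 0 := by
  have h0 : x ∈ LieAlgebra.derivedSeriesOfIdeal F L (1 + 1) ⊤ := hx
  rw [LieAlgebra.derivedSeriesOfIdeal_succ] at h0
  have h1 : x ∈ LieSubmodule.toSubmodule (⁅LieAlgebra.derivedSeriesOfIdeal F L 1 ⊤,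
      LieAlgebra.derivedSeriesOfIdeal F L 1 ⊤⁆ : LieIdeal F L) := h0
  rw [LieSubmodule.lieIdeal_oper_eq_linear_span'] at h1
  clear h0 hx
  induction h1 using Submodule.span_induction with
  | mem z hz =>
    obtain ⟨a, ha, b, hb, rfl⟩ := hz
    rw [h, (lf_eq_zero_iff ab a).2 (der1 ab hab a ha), (lf_eq_zero_iff ab b).2 (der1 ab hab b hb)]
    simp
  | zero => exact map_zero _
  | add y z _ _ hy hz => rw [map_add, hy, hz, add_zero]
  | smul t y _ hy => rw [map_smul, hy, smul_zero]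

end

theorem t_Q (F : Type) [Field F] [CharZero F] (L H : Type) [LieRing L] [LieAlgebra F L]
    [Module.Finite F L] [LieRing H] [LieAlgebra F H] (d : ℕ) (abL : L →ₗ[F] (Fin d → F))
    (abH : H →ₗ[F] (Fin d → F)) (hL : IsAb abL) (hH : IsAb abH)
    (ML MH : Type) [AddCommGroup ML] [Module F ML] [Module (Sy F d) ML]
    [IsScalarTower F (Sy F d) ML] [AddCommGroup MH] [Module F MH] [Module (Sy F d) MH]
    [IsScalarTower F (Sy F d) MH] (fL : Fox abL ML) (fH : Fox abH MH)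
    (f f' : Fin d → Sy F d) (Φ : ML ≃ₗ[F] MH)
    (hf0 : ∀ i, constantCoeff (f i) = 0) (hf'0 : ∀ i, constantCoeff (f' i) = 0)
    (hff' : ∀ i, aeval f (f' i) = X i) (hf'f : ∀ i, aeval f' (f i) = X i)
    (hΦ : ∀ m, fH.pr (Φ m) = aeval f (fL.pr m))
    (Θ : L →ₗ[F] MH) (hΘ1 : ∀ x y, Θ ⁅x, y⁆ = aeval (lin f) (lf abL y) • Θ x - aeval (lin f) (lf abL x) • Θ y)
    (hΘ2 : ∀ x, fH.pr (Θ x) = aeval (lin f) (lf abL x)) (hΘ3 : ∀ x, abL x = 0 → Θ x = 0 → fL.io x = 0) :
    Nonempty ((L ⧸ LieAlgebra.derivedSeries F L 2) ≃ₗ⁅F⁆ (H ⧸ LieAlgebra.derivedSeries F H 2)) := by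
  classical
  -- kernels
  have kL : ∀ x, fL.io x = 0 ↔ x ∈ LieAlgebra.derivedSeries F L 2 := by
    intro x
    refine ⟨fL.h6 x, fun hx => ?_⟩
    refine kill2 abL hL X fL.io (fun x y => ?_) x hx
    rw [fL.h2]
    simp
  have kH : ∀ x, fH.io x = 0 ↔ x ∈ LieAlgebra.derivedSeries F H 2 := by
    intro x
    refine ⟨fH.h6 x, fun hx => ?_⟩
    refine kill2 abH hH X fH.io (fun x y => ?_) x hx
    rw [fH.h2]
    simp
  have abΘ : ∀ x, Θ x = 0 → abL x = 0 := by
    intro x hx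
    have h1 := hΘ2 x
    rw [hx, map_zero, aeval_lf] at h1
    exact lin_inj f f' hf'0 hf'f _ h1.symm
  have kΘ : ∀ x, Θ x = 0 ↔ x ∈ LieAlgebra.derivedSeries F L 2 := by
    intro x
    refine ⟨fun hx => (kL x).1 (hΘ3 x (abΘ x hx) hx), fun hx => ?_⟩
    exact kill2 abL hL (lin f) Θ hΘ1 x hx
  -- `Θ L ⊆ io H`
  have hrange : ∀ x, ∃ h, fH.io h = Θ x := by
    intro x
    obtain ⟨h, hh⟩ := hH.1 fun k => ∑ i, abL x i * Lc k (f i)
    have h1 : fH.pr (Θ x - fH.io h) = 0 := by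
      rw [map_sub, hΘ2, fH.h1, aeval_lf_lin]
      unfold lf
      rw [hh, sub_self]
    obtain ⟨y, hy⟩ := fH.h5 _ h1
    refine ⟨y + h, ?_⟩
    rw [map_add, hy, sub_add_cancel]
  obtain ⟨g, hg⟩ := (fH.io.rangeRestrict).exists_rightInverse_of_surjective
    (LinearMap.range_rangeRestrict fH.io)
  have hΘr : ∀ x, Θ x ∈ LinearMap.range fH.io := fun x => by
    obtain ⟨h, hh⟩ := hrange x
    exact ⟨h, hh⟩
  let θ : L →ₗ[F] H := g ∘ₗ (Θ.codRestrict (LinearMap.range fH.io) hΘr)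
  have hθ : ∀ x, fH.io (θ x) = Θ x := by
    intro x
    have h1 := LinearMap.congr_fun hg (Θ.codRestrict (LinearMap.range fH.io) hΘr x)
    have h2 := congrArg Subtype.val h1
    exact h2
  -- the kernel parts
  let AL : Submodule F ML := LinearMap.ker (fL.pr.restrictScalars F)
  let AH : Submodule F MH := LinearMap.ker (fH.pr.restrictScalars F)
  have mAL : ∀ m, m ∈ AL ↔ fL.pr m = 0 := fun m => Iff.rfl
  have mAH : ∀ m, m ∈ AH ↔ fH.pr m = 0 := fun m => Iff.rfl
  let K : Submodule F L := LinearMap.ker abL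
  have mK : ∀ x, x ∈ K ↔ abL x = 0 := fun x => Iff.rfl
  let ioK : K →ₗ[F] ML := fL.io.domRestrict K
  let ΘK : K →ₗ[F] MH := Θ.domRestrict K
  have hker : LinearMap.ker ioK = LinearMap.ker ΘK := by
    ext x
    show fL.io x = 0 ↔ Θ x = 0
    rw [kL, kΘ]
  have rL : LinearMap.range ioK = AL := by
    ext m
    rw [mAL]
    constructor
    · rintro ⟨x, rfl⟩
      show fL.pr (fL.io x) = 0
      rw [fL.h1, lf_eq_zero_iff]
      exact x.2
    · intro hm
      obtain ⟨x, rfl⟩ := fL.h5 m hm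
      rw [fL.h1, lf_eq_zero_iff] at hm
      exact ⟨⟨x, hm⟩, rfl⟩
  have hcancel : ∀ p : Sy F d, aeval f' (aeval f p) = p := by
    intro p
    have h1 : ((aeval f' : Sy F d →ₐ[F] Sy F d).comp (aeval f)) = AlgHom.id F _ := by
      apply MvPolynomial.algHom_ext
      intro i
      show aeval f' (aeval f (X i)) = X i
      rw [aeval_X, hf'f]
    have := congrArg (fun q => q p) h1
    exact this
  have hAH : AL.map (Φ : ML →ₗ[F] MH) = AH := by
    ext m
    rw [mAH]
    constructor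
    · rintro ⟨m, hm, rfl⟩
      show fH.pr (Φ m) = 0
      have hm' : fL.pr m = 0 := hm
      rw [hΦ, hm', map_zero]
    · intro hm
      refine ⟨Φ.symm m, ?_, by simp⟩
      show fL.pr (Φ.symm m) = 0
      have h1 := hΦ (Φ.symm m)
      rw [LinearEquiv.apply_symm_apply, hm] at h1
      have h2 := congrArg (aeval f') h1
      rw [map_zero, hcancel] at h2
      exact h2.symm
  have finAL : Module.Finite F AL := by
    rw [← rL]
    infer_instance
  have finAH : Module.Finite F AH := by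
    rw [← hAH]
    infer_instance
  have eAA : Module.finrank F AH = Module.finrank F AL := by
    rw [← hAH]
    exact LinearEquiv.finrank_map_eq Φ AL
  have rΘ : LinearMap.range ΘK ≤ AH := by
    rintro m ⟨x, rfl⟩
    show fH.pr (Θ x) = 0
    rw [hΘ2]
    have : abL x = 0 := x.2
    rw [(lf_eq_zero_iff abL x).2 this, map_zero]
  have rdim : Module.finrank F (LinearMap.range ΘK) = Module.finrank F AH := by
    have h1 := LinearMap.finrank_range_add_finrank_ker ioK
    have h2 := LinearMap.finrank_range_add_finrank_ker ΘK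
    rw [← hker] at h2
    rw [eAA, ← rL]
    omega
  have rEq : LinearMap.range ΘK = AH := Submodule.eq_of_le_of_finrank_eq rΘ rdim
  -- the linear part is surjective
  let Lm : (Fin d → F) →ₗ[F] (Fin d → F) :=
    { toFun := fun c k => ∑ i, c i * Lc k (f i)
      map_add' := fun c c' => by
        funext k
        simp [add_mul, Finset.sum_add_distrib]
      map_smul' := fun t c => by
        funext k
        simp [Finset.mul_sum, mul_assoc] }
  have Lminj : Function.Injective Lm := by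
    rw [injective_iff_map_eq_zero]
    intro c hc
    apply lin_inj f f' hf'0 hf'f c
    unfold lin
    simp only [hc_one, Finset.mul_sum]
    rw [Finset.sum_comm]
    refine Finset.sum_eq_zero fun k _ => ?_
    have h1 : ∑ i, c i * Lc k (f i) = 0 := congrFun hc k
    have h2 : ∑ i, (C (c i) * (C (Lc k (f i)) * X k) : Sy F d) = C (∑ i, c i * Lc k (f i)) * X k := by
      rw [map_sum, Finset.sum_mul]
      refine Finset.sum_congr rfl fun i _ => ?_
      rw [map_mul]
      ring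
    rw [h2, h1, map_zero, zero_mul]
  have Lmsurj : Function.Surjective Lm := LinearMap.injective_iff_surjective.1 Lminj
  -- surjectivity
  have hsurj : ∀ h, ∃ x, Θ x = fH.io h := by
    intro h
    obtain ⟨c, hc⟩ := Lmsurj (abH h)
    obtain ⟨x, hx⟩ := hL.1 c
    have h1 : fH.pr (fH.io h - Θ x) = 0 := by
      rw [map_sub, hΘ2, fH.h1, aeval_lf_lin]
      have h2 : ∀ k, ∑ i, abL x i * Lc k (f i) = abH h k := by
        intro k
        rw [hx]
        exact congrFun hc k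
      simp only [h2]
      unfold lf
      rw [sub_self]
    have h3 : fH.io h - Θ x ∈ LinearMap.range ΘK := by
      rw [rEq]
      exact h1
    obtain ⟨y, hy⟩ := h3
    refine ⟨(y : L) + x, ?_⟩
    have hy' : Θ (y : L) = fH.io h - Θ x := hy
    rw [map_add, hy', sub_add_cancel]
  -- the Lie homomorphism
  let π : H →ₗ⁅F⁆ H ⧸ LieAlgebra.derivedSeries F H 2 :=
    { (LieSubmodule.Quotient.mk' (LieAlgebra.derivedSeries F H 2) : H →ₗ[F] _) with
      map_lie' := fun {x y} => LieSubmodule.Quotient.mk_bracket (LieAlgebra.derivedSeries F H 2) x y }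
  have hπ : ∀ h, π h = 0 ↔ h ∈ LieAlgebra.derivedSeries F H 2 := by
    intro h
    exact LieSubmodule.Quotient.mk_eq_zero' 
  have hπs : Function.Surjective π := by
    intro q
    obtain ⟨h, rfl⟩ := LieSubmodule.Quotient.surjective_mk' _ q
    exact ⟨h, rfl⟩
  have hlie : ∀ x y, π (θ ⁅x, y⁆) = ⁅π (θ x), π (θ y)⁆ := by
    intro x y
    rw [← LieHom.map_lie, ← sub_eq_zero, ← map_sub π, hπ, ← kH, map_sub, hθ, fH.h2, hΘ1, hθ, hθ]
    have h1 : ∀ z, lf abH (θ z) = aeval (lin f) (lf abL z) := by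
      intro z
      rw [← fH.h1, hθ, hΘ2]
    rw [h1, h1, sub_self]
  let ρ : L →ₗ⁅F⁆ H ⧸ LieAlgebra.derivedSeries F H 2 :=
    { ((π : H →ₗ[F] _) ∘ₗ θ : L →ₗ[F] _) with
      map_lie' := fun {x y} => hlie x y }
  have hρ : ∀ x, ρ x = π (θ x) := fun x => rfl
  have kρ : ρ.ker = LieAlgebra.derivedSeries F L 2 := by
    ext x
    rw [LieHom.mem_ker, hρ, hπ, ← kH, hθ, kΘ]
  have sρ : Function.Surjective ρ := by
    intro q
    obtain ⟨h, rfl⟩ := hπs q
    obtain ⟨x, hx⟩ := hsurj h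
    refine ⟨x, ?_⟩
    rw [hρ, ← sub_eq_zero, ← map_sub π, hπ, ← kH, map_sub, hθ, hx, sub_self]
  have e1 : Nonempty ((L ⧸ ρ.ker) ≃ₗ⁅F⁆ ρ.range) := ⟨ρ.quotKerEquivRange⟩
  rw [kρ, (LieHom.range_eq_top ρ).2 sρ] at e1
  obtain ⟨e1⟩ := e1
  exact ⟨e1.trans LieSubalgebra.topEquiv⟩

theorem assembly2 (hFQ : S_FQ) (hZ : S_Z) (hB : S_B) (hC : S_C) (hG : S_G)
    (F : Type) [Field F] [CharZero F] (L : Type) [LieRing L] [LieAlgebra F L]
    [Module.Finite F L] (H : Type) [LieRing H] [LieAlgebra F H]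
    (hU : Nonempty (UniversalEnvelopingAlgebra F L ≃ₐ[F] UniversalEnvelopingAlgebra F H)) :
    Nonempty ((L ⧸ LieAlgebra.derivedSeries F L 2) ≃ₗ⁅F⁆ (H ⧸ LieAlgebra.derivedSeries F H 2)) := by
  obtain ⟨d, abL, abH, hL, hH⟩ := hZ F L H hU
  obtain ⟨ML, i1, i2, i3, i4, ⟨fL⟩⟩ := hFQ F L d abL hL
  obtain ⟨MH, j1, j2, j3, j4, ⟨fH⟩⟩ := hFQ F H d abH hH
  obtain ⟨f, f', hf0, hf0', hff, hff', ⟨Φ, hΦ1, hΦ2⟩, hlift⟩ :=
    hC F L H d abL abH hL hH ML MH fL fH hU
  obtain ⟨K, Y, hY1, hY2, hY3⟩ := hB F d f f' hf0 hf0' hff hff' (liftSub fH.pr) hlift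
  have hs : ∀ i, ∃ m, fH.pr m = X i := by
    intro i
    obtain ⟨x, hx⟩ := hH.1 (Pi.single i 1)
    refine ⟨fH.io x, ?_⟩
    rw [fH.h1, lf, hx]
    rw [Finset.sum_eq_single i]
    · simp
    · intro j _ hj
      simp [Pi.single_eq_of_ne hj]
    · intro h
      exact absurd (Finset.mem_univ i) h
  obtain ⟨Θ, h1, h2, h3⟩ := hG F L d abL hL ML MH fL fH.pr f f' Φ K Y hf0 hff' hΦ1 hΦ2 hs hY1 hY2 hY3
  exact t_Q F L H d abL abH hL hH ML MH fL fH f f' Φ hf0 hf0' hff hff' hΦ2 Θ h1 h2 h3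

end Pool.Agent.U337.EM.Q
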