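import Pool.Agent.U337.EM.TLft

/-!
# Project EM, package C: transfer of semilinear maps along an isomorphism of enveloping algebras
-/

set_option autoImplicit false

open MvPolynomial

namespace Pool.Agent.U337.EM.T669

open Pool.Agent.U337.EM

attribute [local instance 100] LieRing.ofAssociativeRing


theorem lf_w {F : Type} [Field F] {L : Type} [LieRing L] [LieAlgebra F L] {d : ℕ}
    {ab : L →ₗ[F] (Fin d → F)} {w : Fin d → L} (hw : ∀ i, ab (w i) = Pi.single i 1) (i : Fin d) :
    lf ab (w i) = X i := by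
  unfold lf
  rw [hw, Finset.sum_eq_single i]
  · rw [Pi.single_eq_same, C_1, one_mul]
  · intro j _ hj
    rw [Pi.single_eq_of_ne hj, C_0, zero_mul]
  · intro h
    exact absurd (Finset.mem_univ i) h

theorem aeval_zero_lf {F : Type} [Field F] {L : Type} [LieRing L] [LieAlgebra F L] {d : ℕ}
    {ab : L →ₗ[F] (Fin d → F)} {B : Type} [CommRing B] [Algebra F B] (x : L) :
    aeval (0 : Fin d → B) (lf ab x) = 0 := by
  rw [aeval_lf]
  simp

/-- **Package C.** -/
theorem t_C : S_A → S_C := by
  intro hA F _ _ L H _ _ _ _ d abL abH hL hH ML MH _ _ _ _ _ _ _ _ fL fH ⟨φ⟩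
  obtain ⟨w, hw⟩ := exists_w hL
  obtain ⟨w', hw'⟩ := exists_w hH
  obtain ⟨barH, hbarH⟩ := exists_char hH (X : Fin d → Sy F d)
  obtain ⟨barL, hbarL⟩ := exists_char hL (X : Fin d → Sy F d)
  have hbarH' : ∀ h, barH (UniversalEnvelopingAlgebra.ι F h) = lf abH h := fun h => by rw [hbarH, aeval_X_left_apply]
  have hbarL' : ∀ x, barL (UniversalEnvelopingAlgebra.ι F x) = lf abL x := fun h => by rw [hbarL, aeval_X_left_apply]
  set g : Fin d → Sy F d := fun i => barH (φ (UniversalEnvelopingAlgebra.ι F (w i))) with hg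
  set g' : Fin d → Sy F d := fun i => barL (φ.symm (UniversalEnvelopingAlgebra.ι F (w' i))) with hg'
  have G1 : ∀ x, barH (φ (UniversalEnvelopingAlgebra.ι F x)) = aeval g (lf abL x) := fun x => by
    rw [char_phi hL hw φ hbarH' hbarH x]
    simp only [aeval_X_left_apply, hg]
  have G2 : ∀ h, barL (φ.symm (UniversalEnvelopingAlgebra.ι F h)) = aeval g' (lf abH h) := fun h => by
    rw [char_phi hH hw' φ.symm hbarL' hbarL h]
    simp only [aeval_X_left_apply, hg']
  have G3 : ∀ u, barH (φ u) = aeval g (barL u) := by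
    have : barH.comp (φ : UniversalEnvelopingAlgebra F L →ₐ[F] UniversalEnvelopingAlgebra F H) =
        (aeval g).comp barL := char_ext fun x => by
      rw [AlgHom.comp_apply, AlgHom.comp_apply, hbarL']
      exact G1 x
    exact fun u => DFunLike.congr_fun this u
  have G4 : ∀ u, barL (φ.symm u) = aeval g' (barH u) := by
    have : barL.comp (φ.symm : UniversalEnvelopingAlgebra F H →ₐ[F]
        UniversalEnvelopingAlgebra F L) = (aeval g').comp barH := char_ext fun x => by
      rw [AlgHom.comp_apply, AlgHom.comp_apply, hbarH']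
      exact G2 x
    exact fun u => DFunLike.congr_fun this u
  have h12 : ∀ i, aeval g (g' i) = X i := fun i => by
    show aeval g (barL (φ.symm (UniversalEnvelopingAlgebra.ι F (w' i)))) = X i
    rw [← G3, AlgEquiv.apply_symm_apply, hbarH', lf_w hw']
  have h21 : ∀ i, aeval g' (g i) = X i := fun i => by
    show aeval g' (barH (φ (UniversalEnvelopingAlgebra.ι F (w i)))) = X i
    rw [← G4, AlgEquiv.symm_apply_apply, hbarL', lf_w hw]
  set c : Fin d → F := fun i => constantCoeff (g i) with hc
  set f : Fin d → Sy F d := fun i => g i - C (c i) with hf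
  set f' : Fin d → Sy F d := fun i => aeval (fun l => X l + C (c l)) (g' i) with hf'
  have hcc : ∀ p : Sy F d, constantCoeff p = aeval (0 : Fin d → F) p := fun p => by
    rw [aeval_zero]; rfl
  have F1 : ∀ i, constantCoeff (f i) = 0 := fun i => by
    simp only [hf, hc, map_sub, constantCoeff_C, sub_self]
  have F2 : ∀ i, constantCoeff (f' i) = 0 := fun i => by
    have e : (fun l => aeval (0 : Fin d → F) (X l + C (c l) : Sy F d)) =
        fun l => aeval (0 : Fin d → F) (g l) := by
      funext l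
      rw [map_add, aeval_X, aeval_C, Pi.zero_apply, zero_add, ← hcc]
      rfl
    simp only [hf']
    rw [hcc, comp_aeval_apply, e, ← comp_aeval_apply, h12, aeval_X, Pi.zero_apply]
  have F3 : ∀ i, aeval f (f' i) = X i := fun i => by
    have e : (fun l => aeval f (X l + C (c l) : Sy F d)) = g := by
      funext l
      rw [map_add, aeval_X, aeval_C]
      show g l - C (c l) + C (c l) = g l
      ring
    show aeval f (aeval (fun l => X l + C (c l)) (g' i)) = X i
    rw [comp_aeval_apply, e, h12]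
  have F4 : ∀ i, aeval f' (f i) = X i := fun i => by
    have e : aeval f' (g i) = X i + C (c i) := by
      show aeval (fun l => aeval (fun l => X l + C (c l)) (g' l)) (g i) = _
      rw [← comp_aeval_apply, h21, aeval_X]
    show aeval f' (g i - C (c i)) = X i
    rw [map_sub, e, aeval_C]
    show X i + C (c i) - C (c i) = X i
    ring
  have F5 : ∀ s, aeval f (aeval f' s) = s := fun s => by
    rw [comp_aeval_apply]
    simp only [F3]
    exact aeval_X_left_apply s
  have F6 : ∀ s, aeval f' (aeval f s) = s := fun s => by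
    rw [comp_aeval_apply]
    simp only [F4]
    exact aeval_X_left_apply s
  obtain ⟨χ₀, hχ₀⟩ := exists_char hH (0 : Fin d → Sy F d)
  obtain ⟨θf, hθf⟩ := exists_char hH f'
  have K1 : (fun i => aeval X (g i) - aeval (0 : Fin d → Sy F d) (g i)) = f := by
    funext i
    rw [aeval_X_left_apply, aeval_zero]
    rfl
  have K2 : (fun i => aeval f' (g i) - aeval (0 : Fin d → Sy F d) (g i)) = X := by
    funext i
    have e : aeval f' (g i) = aeval f' (f i) + C (c i) := by
      show _ = aeval f' (g i - C (c i)) + C (c i)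
      rw [map_sub, aeval_C]
      show _ = aeval f' (g i) - C (c i) + C (c i)
      ring
    rw [e, F4, aeval_zero]
    show X i + C (c i) - C (c i) = X i
    ring
  obtain ⟨δ, Φ, d1, d2, d3, d4⟩ := fwd hA hL hw φ hbarH' fL fH (N := MH) (β := LinearMap.id)
    hχ₀ hbarH (fun s m => by
      have e : (fun i => X i - (0 : Fin d → Sy F d) i) = X := by funext i; simp
      rw [e, aeval_X_left_apply]
      rfl)
  have d4' : ∀ (s : Sy F d) (m : ML), Φ (s • m) = aeval f s • Φ m := fun s m => by
    rw [← K1]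
    exact d4 s m
  obtain ⟨δ₂, Ψ, e1, e2, e3, e4⟩ := bwd hA hL hw φ hbarH' fL fH (N := ML) (β' := LinearMap.id)
    hχ₀ hθf (fun s m => by
      show s • m = aeval (fun i => aeval f' (g i) - aeval (0 : Fin d → Sy F d) (g i)) s • m
      rw [K2, aeval_X_left_apply])
  have e4' : ∀ (s : Sy F d) (m : MH), Ψ (s • m) = aeval f' s • Ψ m := fun s m => by
    have e : (fun i => f' i - (0 : Fin d → Sy F d) i) = f' := by funext i; simp
    rw [e4, e]
  have C1 : (aeval f' : Sy F d →ₐ[F] Sy F d).comp χ₀ = χ₀ := char_ext fun h => by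
    rw [AlgHom.comp_apply, hχ₀, aeval_zero_lf, map_zero]
  have C2 : (aeval f' : Sy F d →ₐ[F] Sy F d).comp barH = θf := char_ext fun h => by
    rw [AlgHom.comp_apply, hbarH', hθf]
  have C3 : (aeval f : Sy F d →ₐ[F] Sy F d).comp χ₀ = χ₀ := char_ext fun h => by
    rw [AlgHom.comp_apply, hχ₀, aeval_zero_lf, map_zero]
  have C4 : (aeval f : Sy F d →ₐ[F] Sy F d).comp θf = barH := char_ext fun h => by
    rw [AlgHom.comp_apply, hθf, F5, hbarH']
  have m1 := der_semi d1 (ψ := (aeval f' : Sy F d →ₐ[F] Sy F d)) (P := Ψ) e4'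
  rw [C1, C2] at m1
  have m2 := der_semi e1 (ψ := (aeval f : Sy F d →ₐ[F] Sy F d)) (P := Φ) d4'
  rw [C3, C4] at m2
  have n1 : Ψ ∘ₗ δ = δ₂ := der_ext hA m1 e1 fun h => by
    rw [LinearMap.comp_apply, d2, ← e3]
    rfl
  have n2 : Φ ∘ₗ δ₂ = δ := der_ext_phi hA φ m2 d1 fun x => by
    rw [LinearMap.comp_apply, e2, ← d3]
    rfl
  have o1 : ∀ m, Ψ (Φ m) = m := by
    intro m
    have := fox_ext fL (κ := (X : Fin d → Sy F d)) (β := (Ψ ∘ₗ Φ).toAddMonoidHom)
      (β' := AddMonoidHom.id ML) (fun s m => ?_) (fun s m => ?_) (fun x => ?_) m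
    · exact this
    · show Ψ (Φ (s • m)) = aeval X s • Ψ (Φ m)
      rw [d4', e4', F6, aeval_X_left_apply]
    · show s • m = aeval X s • m
      rw [aeval_X_left_apply]
    · show Ψ (Φ (fL.io x)) = fL.io x
      rw [d3]
      have h1 := LinearMap.congr_fun n1 (φ (UniversalEnvelopingAlgebra.ι F x))
      rw [LinearMap.comp_apply, e2] at h1
      exact h1
  have o2 : ∀ m, Φ (Ψ m) = m := by
    intro m
    have := fox_ext fH (κ := (X : Fin d → Sy F d)) (β := (Φ ∘ₗ Ψ).toAddMonoidHom)
      (β' := AddMonoidHom.id MH) (fun s m => ?_) (fun s m => ?_) (fun x => ?_) m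
    · exact this
    · show Φ (Ψ (s • m)) = aeval X s • Φ (Ψ m)
      rw [e4', d4', F5, aeval_X_left_apply]
    · show s • m = aeval X s • m
      rw [aeval_X_left_apply]
    · show Φ (Ψ (fH.io x)) = fH.io x
      rw [e3]
      have h1 := LinearMap.congr_fun n2 (UniversalEnvelopingAlgebra.ι F x)
      rw [LinearMap.comp_apply, d2] at h1
      exact h1
  -- the linear forms
  have q1 : (fH.pr.restrictScalars F) ∘ₗ δ = barH.toLinearMap - χ₀.toLinearMap := by
    refine der_ext hA (der_semi d1 (ψ := AlgHom.id F (Sy F d)) (P := fH.pr.restrictScalars F)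
      fun b n => ?_) (diff_der χ₀ barH) fun h => ?_
    · exact map_smul fH.pr b n
    · rw [LinearMap.comp_apply, d2, LinearMap.sub_apply, AlgHom.toLinearMap_apply,
        AlgHom.toLinearMap_apply, hχ₀, hbarH', aeval_zero_lf, sub_zero]
      exact fH.h1 h
  have q2 : ∀ m, fH.pr (Φ m) = aeval f (fL.pr m) := by
    intro m
    have := fox_ext fL (κ := f) (β := ((fH.pr.restrictScalars F) ∘ₗ Φ).toAddMonoidHom)
      (β' := ((aeval f : Sy F d →ₐ[F] Sy F d) : Sy F d →+ Sy F d).comp fL.pr.toAddMonoidHom)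
      (fun s m => ?_) (fun s m => ?_) (fun x => ?_) m
    · exact this
    · show fH.pr (Φ (s • m)) = aeval f s • fH.pr (Φ m)
      rw [d4', map_smul]
    · show aeval f (fL.pr (s • m)) = aeval f s • aeval f (fL.pr m)
      rw [map_smul, smul_eq_mul, map_mul, smul_eq_mul]
    · show fH.pr (Φ (fL.io x)) = aeval f (fL.pr (fL.io x))
      have h1 := LinearMap.congr_fun q1 (φ (UniversalEnvelopingAlgebra.ι F x))
      rw [LinearMap.comp_apply, ← d3, LinearMap.sub_apply, AlgHom.toLinearMap_apply,
        AlgHom.toLinearMap_apply, char_phi hL hw φ hbarH' hχ₀, char_phi hL hw φ hbarH' hbarH,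
        ← aeval_sub'] at h1
      rw [fL.h1, ← K1]
      exact h1
  refine ⟨f, f', F1, F2, F3, F4, ⟨LinearEquiv.ofLinearMap Φ Ψ (LinearMap.ext o2) (LinearMap.ext o1),
    d4', q2⟩, fun x ξ Y hY => ?_⟩
  refine lifting hA hL hH hw φ hbarH' fL fH x ξ Y fun i => ?_
  have hd : ∀ k, pderiv k (f i) = pderiv k (barH (φ (UniversalEnvelopingAlgebra.ι F (w i)))) := fun k => by
    show pderiv k (g i - C (c i)) = _
    rw [map_sub, pderiv_C, sub_zero]
  have := hY i
  simp only [hd] at this
  exact this

end Pool.Agent.U337.EM.T669
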