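import Mathlib

set_option autoImplicit false

/-!
# Project EM (MP_6e5a6a_al): finite-dimensional metabelian Lie algebras over fields of characteristic zero are
determined by their enveloping algebras

Notation in the comments: `S = F[X_1..X_d]`, `p(x) = lf ab x` the linear form of `x`, `U = U(L)`.
The Fox module `M` of `L`: an extension `0 → L'/L'' → M → (X_1..X_d) → 0` of `S`-modules, generated by `L`, with
`[x,y] = p(y) x - p(x) y`.
-/

open MvPolynomial

namespace Pool.Agent.U337.EM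

/-- the polynomial ring -/
abbrev Sy (F : Type) [Field F] (d : ℕ) : Type := MvPolynomial (Fin d) F

section
variable {F : Type} [Field F] {L : Type} [LieRing L] [LieAlgebra F L] {d : ℕ}

/-- the linear form of `x` -/
noncomputable def lf (ab : L →ₗ[F] (Fin d → F)) (x : L) : Sy F d := ∑ i, C (ab x i) * X i

/-- `ab` is the quotient map onto `L / [L, L]`, in coordinates -/
def IsAb (ab : L →ₗ[F] (Fin d → F)) : Prop :=
  Function.Surjective ab ∧ ∀ x, ab x = 0 ↔ x ∈ Submodule.span F {z : L | ∃ a b : L, ⁅a, b⁆ = z}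

/-- the Fox module of `L` -/
structure Fox (ab : L →ₗ[F] (Fin d → F)) (M : Type) [AddCommGroup M] [Module F M] [Module (Sy F d) M]
    [IsScalarTower F (Sy F d) M] where
  pr : M →ₗ[Sy F d] Sy F d
  io : L →ₗ[F] M
  h1 : ∀ x, pr (io x) = lf ab x
  h2 : ∀ x y, io ⁅x, y⁆ = lf ab y • io x - lf ab x • io y
  h3 : ∀ (B N : Type) [CommRing B] [Algebra F B] [AddCommGroup N] [Module F N] [Module B N]
    [IsScalarTower F B N] (κ : Fin d → B) (b : L →ₗ[F] N),
    (∀ x y, b ⁅x, y⁆ = aeval κ (lf ab y) • b x - aeval κ (lf ab x) • b y) →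
    ∃ β : M →ₗ[F] N, (∀ (s : Sy F d) (m : M), β (s • m) = aeval κ s • β m) ∧ ∀ x, β (io x) = b x
  h4 : Submodule.span (Sy F d) (Set.range io) = ⊤
  h5 : ∀ m, pr m = 0 → ∃ x, io x = m
  h6 : ∀ x, io x = 0 → x ∈ LieAlgebra.derivedSeries F L 2

end

/-- **X** (an extension of `S`-modules).  Take `M = {(a, p) : p` without constant term`}` (or any other model) with
`X_j (a, p) = (X_j a + γ_j(p), X_j p)`, where `γ_j(p) = ∑_i (n (n+1))⁻¹ (∂_i p) • ω i j` for `p` homogeneous of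
degree `n ≥ 1`.  These operators commute: for `p` of degree `n`, `X_k γ_j(p) + γ_k(X_j p)` minus the same with `j, k`
exchanged is `∑_i ∂_i p • (X_k ω i j - X_j ω i k) (1/(n(n+1)) - 1/((n+1)(n+2))) + 2/((n+1)(n+2)) p • ω j k`, and
`X_k ω i j - X_j ω i k = - X_i ω j k`, `∑ X_i ∂_i p = n p`; so it is `0`.  (Commuting operators give an algebra map
`MvPolynomial → End`: use `Algebra.adjoinCommRingOfComm`, or define the action of a monomial as a product.)
`inc a = (a, 0)`, `e i = (0, X_i)`, `X_j e_i - X_i e_j = inc ((ω i j - ω j i)/2) = inc (ω i j)`.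
Universal property: `β(a, p) = α(a) + n⁻¹ ∑_i κ(∂_i p) v_i` for `p` homogeneous of degree `n`.
(An ordered version also works: `γ_j(X^s) = X^(s - e_i) • ω i j` if `j < i = min supp s`, else `0`;
`β(a, X^s) = α a + κ(X^(s-e_i)) v_i`, `i = min supp s`; then the characteristic does not matter.) -/
def S_X : Prop := ∀ (F : Type) [Field F] [CharZero F] (d : ℕ) (A : Type) [AddCommGroup A] [Module F A]
  [Module (Sy F d) A] [IsScalarTower F (Sy F d) A] (ω : Fin d → Fin d → A),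
  (∀ i j, ω i j = - ω j i) →
  (∀ i j k, (X k : Sy F d) • ω i j + (X i : Sy F d) • ω j k + (X j : Sy F d) • ω k i = 0) →
  ∃ (M : Type) (_ : AddCommGroup M) (_ : Module F M) (_ : Module (Sy F d) M)
    (_ : IsScalarTower F (Sy F d) M) (pr : M →ₗ[Sy F d] Sy F d) (inc : A →ₗ[Sy F d] M) (e : Fin d → M),
    (∀ i, pr (e i) = X i) ∧ (∀ a, pr (inc a) = 0) ∧ Function.Injective inc ∧
    (∀ m, pr m = 0 → ∃ a, inc a = m) ∧
    (∀ i j, (X j : Sy F d) • e i - (X i : Sy F d) • e j = inc (ω i j)) ∧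
    (∀ m, ∃ (a : A) (s : Fin d → Sy F d), m = inc a + ∑ i, s i • e i) ∧
    ∀ (B N : Type) [CommRing B] [Algebra F B] [AddCommGroup N] [Module F N] [Module B N]
      [IsScalarTower F B N] (κ : Fin d → B) (α : A →ₗ[F] N) (v : Fin d → N),
      (∀ (s : Sy F d) (a : A), α (s • a) = aeval κ s • α a) →
      (∀ i j, κ j • v i - κ i • v j = α (ω i j)) →
      ∃ β : M →ₗ[F] N, (∀ (s : Sy F d) (m : M), β (s • m) = aeval κ s • β m) ∧
        (∀ a, β (inc a) = α a) ∧ ∀ i, β (e i) = v i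

/-- **FX** (the Fox module of a metabelian Lie algebra, from X).  `w i ∈ L` with `ab (w i) = e_i`,
`A = ker ab` (abelian, as it is the span of the commutators), `X_k • a = ⁅a, w k⁆` (commuting operators, since
`⁅⁅a, w k⁆, w j⁆ - ⁅⁅a, w j⁆, w k⁆ = ⁅a, ⁅w k, w j⁆⁆ = 0`), `ω i j = ⁅w i, w j⁆`, the condition is Jacobi.  With `M` of
S_X: `io x = inc (x - ∑ ab(x)_i w i) + ∑ ab(x)_i e i`.  For `a ∈ A`, `y ∈ L`: `⁅a, y⁆ = p(y) • a`. `h3`: `α = b|_A`,
`v i = b (w i)`; `b(⁅a, y⁆) = κ(p y) b(a)`.  `io` is injective. -/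
def S_FX : Prop := ∀ (F : Type) [Field F] [CharZero F] (L : Type) [LieRing L] [LieAlgebra F L] (d : ℕ)
  (ab : L →ₗ[F] (Fin d → F)), IsAb ab → (∀ a b c e : L, ⁅⁅a, b⁆, ⁅c, e⁆⁆ = 0) →
  ∃ (M : Type) (_ : AddCommGroup M) (_ : Module F M) (_ : Module (Sy F d) M)
    (_ : IsScalarTower F (Sy F d) M), Nonempty (Fox ab M)

/-- **FQ** (the Fox module of any Lie algebra with finite-dimensional abelianization, from FX).  Apply FX to
`L ⧸ L''`, `L'' = LieAlgebra.derivedSeries F L 2`, and compose `io` with the projection; `b : L → N` as in `h3` kills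
`⁅⁅a,b⁆,⁅c,e⁆⁆`, because `lf ab ⁅a,b⁆ = 0`, hence kills `L''` (the span of these elements, an ideal). -/
def S_FQ : Prop := ∀ (F : Type) [Field F] [CharZero F] (L : Type) [LieRing L] [LieAlgebra F L] (d : ℕ)
  (ab : L →ₗ[F] (Fin d → F)), IsAb ab →
  ∃ (M : Type) (_ : AddCommGroup M) (_ : Module F M) (_ : Module (Sy F d) M)
    (_ : IsScalarTower F (Sy F d) M), Nonempty (Fox ab M)

/-- **A** (derivations of the enveloping algebra are determined by their values on `L`).  Existence: `u ∈ U` acts on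
`N × B` by `(n, s) ↦ (χ(u) n + s δ(u), θ(u) s)`: take the algebra map `U → End_F (N × B)` given by the Lie
map `x ↦ ((n, s) ↦ (χ(ι x) n + s b(x), θ(ι x) s))` (`UniversalEnvelopingAlgebra.lift`), `δ(u) = (u (0, 1)).1`.
Uniqueness: `δ(1) = 0`, and the set where two such maps agree is a subalgebra containing `ι L`. -/
def S_A : Prop := ∀ (F : Type) [Field F] (L : Type) [LieRing L] [LieAlgebra F L] (B N : Type) [CommRing B]
  [Algebra F B] [AddCommGroup N] [Module F N] [Module B N] [IsScalarTower F B N]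
  (χ θ : UniversalEnvelopingAlgebra F L →ₐ[F] B),
  (∀ b : L →ₗ[F] N, (∀ x y, b ⁅x, y⁆ =
      (χ (UniversalEnvelopingAlgebra.ι F x) - θ (UniversalEnvelopingAlgebra.ι F x)) • b y -
      (χ (UniversalEnvelopingAlgebra.ι F y) - θ (UniversalEnvelopingAlgebra.ι F y)) • b x) →
    ∃ δ : UniversalEnvelopingAlgebra F L →ₗ[F] N, (∀ u v, δ (u * v) = χ u • δ v + θ v • δ u) ∧
      ∀ x, δ (UniversalEnvelopingAlgebra.ι F x) = b x) ∧
  ∀ δ δ' : UniversalEnvelopingAlgebra F L →ₗ[F] N, (∀ u v, δ (u * v) = χ u • δ v + θ v • δ u) →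
    (∀ u v, δ' (u * v) = χ u • δ' v + θ v • δ' u) →
    (∀ x, δ (UniversalEnvelopingAlgebra.ι F x) = δ' (UniversalEnvelopingAlgebra.ι F x)) → δ = δ'

/-- **Z** (the abelianizations, from A).  `χ : U(H) → F` the augmentation: the space of `δ : U(H) → F` with
`δ(uv) = χ(u) δ(v) + χ(v) δ(u)` is the dual of `H/[H,H]` (A with `B = N = F`, `θ = χ`).  The same for `L` and the
character `χ ∘ φ` of `U(L)`; `δ ↦ δ ∘ φ` is a bijection, so the duals of `H/[H,H]` and `L/[L,L]` have the same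
dimension, finite; hence `H/[H,H]` is finite-dimensional of the same dimension `d`. -/
def S_Z : Prop := ∀ (F : Type) [Field F] (L H : Type) [LieRing L] [LieAlgebra F L] [Module.Finite F L]
  [LieRing H] [LieAlgebra F H],
  Nonempty (UniversalEnvelopingAlgebra F L ≃ₐ[F] UniversalEnvelopingAlgebra F H) →
  ∃ (d : ℕ) (abL : L →ₗ[F] (Fin d → F)) (abH : H →ₗ[F] (Fin d → F)), IsAb abL ∧ IsAb abH

/-- **GR** (growth).  `U(L) ≅ U(H)`, `L` finite-dimensional: at most `dim L` elements of `H` are linearly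
independent.  The starting library has PBW and sorting: `H67OL.S_PBW`, `H67OL.S_SORT` in `Pool/Agent/H67/OL/Defs.lean`
(proofs in the same folder, `DOM.lean`, `SORT.lean`, `GROW.lean`).  Let `m = dim L`, `v : Fin k → H` independent.
The images of the `v i` in `U(L)` lie in the span of the products of at most `c` elements of a basis of `L`; so
the `(n+1)^k` ordered monomials `v^a`, `a_i ≤ n`, which are independent in `U(H)` (extend `v` to a basis of `H`,
act on `1` by the representation of S_PBW: leading forms `X^a`), lie in the span of the ordered monomials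
of degree `≤ c k n` in `m` letters, of dimension `≤ (c k n + 1)^m`; so `k ≤ m`. -/
def S_GR : Prop := ∀ (F : Type) [Field F] (L H : Type) [LieRing L] [LieAlgebra F L] [Module.Finite F L]
  [LieRing H] [LieAlgebra F H],
  Nonempty (UniversalEnvelopingAlgebra F L ≃ₐ[F] UniversalEnvelopingAlgebra F H) →
  ∀ (k : ℕ) (v : Fin k → H), LinearIndependent F v → k ≤ Module.finrank F L

/-- the vector field `Y` lifts to the module `M` -/
def Lifts {F : Type} [Field F] {d : ℕ} {M : Type} [AddCommGroup M] [Module F M] [Module (Sy F d) M]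
    [IsScalarTower F (Sy F d) M] (pr : M →ₗ[Sy F d] Sy F d) (Y : Fin d → Sy F d) : Prop :=
  ∃ D : M →ₗ[F] M, (∀ (s : Sy F d) (m : M), D (s • m) = s • D m + (∑ k, Y k * pderiv k s) • m) ∧
    ∀ m, pr (D m) = ∑ k, Y k * pderiv k (pr m)

/-- **B** (polynomials).  `f` is a polynomial automorphism of affine space fixing `0`, `V ⊆ S^d` a submodule which
contains all `Y` with `G(x+X) Y = (G(x+X) - G(x)) ξ` for some `x, ξ ∈ S^d`, `G = (∂_k f_i)`.  Put
`f_t(X) = f(tX)/t = ∑_j t^j f^(j+1)(X)`, `f^(j)` the homogeneous component of degree `j`.  Claim: there is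
`Y_t = ∑_j t^j Y^(j)` with `Y^(j) ∈ V` and `∂_t f_t = ∑_k Y_{t,k} ∂_k f_t`, i.e. coefficientwise
`(j+1) f_i^(j+2) = ∑_{a ≤ j} ∑_k Y^(a)_k ∂_k f_i^(j-a+1)`.
Proof: `G` has an inverse matrix `E` over `S` (chain rule for `f' ∘ f = id`); `E(tX) = ∑ t^j E_j(X)`.
(1) `x = cX`, `ξ = E(cX) v`: `E(cX) v - E((c+1)X) v ∈ V` for `v ∈ S^d`, `c ∈ F`.  So `E(nX) v ≡ E(0) v` for all
`n ∈ ℕ`, and as this is polynomial in `n`: `E_j v ∈ V` for all `j ≥ 1`, `v ∈ S^d`.
(2) `X = E(tX) G(tX) X = ∑_j t^j E_j ∑_k k t^(k-1) f^(k)`; coefficient of `t^(k-1)`, `k ≥ 2`, and (1): `E_0 f^(k) ∈ V`.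
(3) `Y_t = ∑_{k ≥ 2, j ≥ 0} (k-1) t^(k-2+j) E_j f^(k)`; `G(tX) Y_t = ∑_{k≥2} (k-1) t^(k-2) f^(k) = ∂_t f_t`. -/
def S_B : Prop := ∀ (F : Type) [Field F] [CharZero F] (d : ℕ) (f f' : Fin d → Sy F d),
  (∀ i, constantCoeff (f i) = 0) → (∀ i, constantCoeff (f' i) = 0) →
  (∀ i, aeval f (f' i) = X i) → (∀ i, aeval f' (f i) = X i) →
  ∀ V : Submodule (Sy F d) (Fin d → Sy F d),
  (∀ x ξ Y : Fin d → Sy F d, (∀ i, ∑ k, aeval (fun l => x l + X l) (pderiv k (f i)) * Y k =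
    ∑ k, (aeval (fun l => x l + X l) (pderiv k (f i)) - aeval x (pderiv k (f i))) * ξ k) → Y ∈ V) →
  ∃ (K : ℕ) (Y : ℕ → Fin d → Sy F d), (∀ j, Y j ∈ V) ∧ (∀ j, K ≤ j → Y j = 0) ∧
    ∀ (i : Fin d) (j : ℕ), ((j : F) + 1) • homogeneousComponent (j + 2) (f i) =
      ∑ a ∈ Finset.range (j + 1), ∑ k, Y a k * pderiv k (homogeneousComponent (j - a + 1) (f i))

/-- **C** (transfer, from A).  For commutative `B`, algebra maps `χ, θ : U(H) → B` and `κ ∈ B^d` with
`aeval κ (p h) = θ(ι h) - χ(ι h)`: `F`-linear maps `β : M_H → N` which are semilinear over `aeval κ` correspond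
(h3 and A) to the `(χ,θ)`-derivations `δ : U(H) → N`, `δ(ι h) = β(io h)`; composing with `φ`, to `(χφ, θφ)`-derivations of
`U(L)`, i.e. to the semilinear maps `M_L → N` over `κ'`, `κ'_i = θ(φ(ι w_i)) - χ(φ(ι w_i))`, `abL w_i = e_i`.
Let `g : S → S`, `X_i ↦ bar(φ(ι w_i))`, `bar : U(H) → S` the algebra map with `bar(ι h) = p(h)`, and
`f_i = g(X_i) - g(X_i)(0)`; `f'` is defined in the same way from `φ⁻¹`, up to a translation.
For points `χ, θ ∈ B^d`: `κ = θ - χ`, `κ' = f(θ) - f(χ)`.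
(1) `Φ`: `B = S`, `N = M_H`, `χ = 0`, `θ = X`, `β = id`; inverse from `φ⁻¹` (uniqueness in A).
`pr`: `pr ∘ δ` and `u ↦ θ(u) - χ(u)` are derivations which agree on `H`.
(2) lifting: `B = S[ε]` (`DualNumber S`), `N = B ⊗ M_H` or `M_H × M_H`.  `m ↦ m` is semilinear over `κ = X`; use it with
`χ = x + εξ`, `θ = x + X + εξ` to get `M_L → N` over `f(x+X+εξ) - f(x+εξ)`, and go back to `M_H → N` with
`χ' = x`, `θ' = x + X + εY` (the same `κ'`, by the equation for `Y`).  Result: `m ↦ m + ε D(m)`, semilinear over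
`X ↦ X + εY`; the first component is `m` by uniqueness in A over `B = S`.  `pr` as in (1). -/
def S_C : Prop := ∀ (F : Type) [Field F] [CharZero F] (L H : Type) [LieRing L] [LieAlgebra F L]
  [LieRing H] [LieAlgebra F H] (d : ℕ) (abL : L →ₗ[F] (Fin d → F)) (abH : H →ₗ[F] (Fin d → F)),
  IsAb abL → IsAb abH → ∀ (ML MH : Type) [AddCommGroup ML] [Module F ML] [Module (Sy F d) ML]
  [IsScalarTower F (Sy F d) ML] [AddCommGroup MH] [Module F MH] [Module (Sy F d) MH]
  [IsScalarTower F (Sy F d) MH] (fL : Fox abL ML) (fH : Fox abH MH),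
  Nonempty (UniversalEnvelopingAlgebra F L ≃ₐ[F] UniversalEnvelopingAlgebra F H) →
  ∃ f f' : Fin d → Sy F d, (∀ i, constantCoeff (f i) = 0) ∧ (∀ i, constantCoeff (f' i) = 0) ∧
    (∀ i, aeval f (f' i) = X i) ∧ (∀ i, aeval f' (f i) = X i) ∧
    (∃ Φ : ML ≃ₗ[F] MH, (∀ (s : Sy F d) (m : ML), Φ (s • m) = aeval f s • Φ m) ∧
      ∀ m, fH.pr (Φ m) = aeval f (fL.pr m)) ∧
    ∀ x ξ Y : Fin d → Sy F d, (∀ i, ∑ k, aeval (fun l => x l + X l) (pderiv k (f i)) * Y k =
      ∑ k, (aeval (fun l => x l + X l) (pderiv k (f i)) - aeval x (pderiv k (f i))) * ξ k) →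
      Lifts fH.pr Y

/-- **O** (modules with connection over `F[t]`).  `C = Q / T P` is a finitely generated `F[t]`-module with
connection, so `u = t - t₀` is injective on it: if `u c₀ = 0`, put `c_n = ∇^n c₀`; then `u c_{n+1} = -(n+1) c_n`, so
`c₀ ∈ ⋂ u^n C`, and by Krull's theorem (`Ideal.mem_iInf_smul_pow_eq_bot_iff`) `c₀ = a u c₀ = 0`.
Apply it to the class of `q`. -/
def S_O : Prop := ∀ (F : Type) [Field F] [CharZero F] (P Q : Type) [AddCommGroup P]
  [Module (Polynomial F) P] [AddCommGroup Q] [Module (Polynomial F) Q] [Module.Finite (Polynomial F) Q]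
  (T : P →ₗ[Polynomial F] Q) (nP : P →+ P) (nQ : Q →+ Q),
  (∀ (a : Polynomial F) p, nP (a • p) = Polynomial.derivative a • p + a • nP p) →
  (∀ (a : Polynomial F) q, nQ (a • q) = Polynomial.derivative a • q + a • nQ q) →
  (∀ p, T (nP p) = nQ (T p)) → ∀ (t₀ : F) (p : P) (q : Q),
    T p = (Polynomial.X - Polynomial.C t₀) • q →
    ∃ p' : P, T (p - (Polynomial.X - Polynomial.C t₀) • p') = 0

/-- **DT** (determinants).  Let `B ∈ 𝓑` with `det B ≠ 0` of minimal order `k` at `t₀`; suppose `k ≥ 1`.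
The ring map `F[t] → F[t][ε]`, `a ↦ a + ε a'`, gives `det(B + ε B') = det B + ε (det B)'`, and
`B + ε B' = (1 + ε 𝔻)(B + ε C)`, `C = B' - 𝔻 B ∈ 𝓑`.  All `det (B + n C)`, `n ∈ ℕ`, are divisible by `(t-t₀)^k`, so
(Vandermonde, characteristic `0`) all coefficients of `det (B + Z C) ∈ F[t][Z]` are; so `(t-t₀)^k` divides
`(det B)'`: a contradiction in characteristic `0`. -/
def S_DT : Prop := ∀ (F : Type) [Field F] [CharZero F] (r : ℕ)
  (𝓑 : Submodule (Polynomial F) (Matrix (Fin r) (Fin r) (Polynomial F)))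
  (𝔻 : Matrix (Fin r) (Fin r) (Polynomial F)),
  (∀ B ∈ 𝓑, B.map Polynomial.derivative - 𝔻 * B ∈ 𝓑) → ∀ B₁ ∈ 𝓑, B₁.det ≠ 0 → ∀ t₀ : F,
    ∃ B ∈ 𝓑, B.det.eval t₀ ≠ 0

/-- **PM** (the connection on `M[t]`).  `∇ (∑ t^i m_i) = ∑ i t^(i-1) m_i - ∑_j ∑_i t^(i+j) D_j(m_i)`; the same formula on
`S[t]` with `δ_j`. -/
def S_PM : Prop := ∀ (F : Type) [Field F] (S M : Type) [CommRing S] [Algebra F S] [AddCommGroup M] [Module F M]
  [Module S M] [IsScalarTower F S M] (pr : M →ₗ[S] S) (K : ℕ) (δ : Fin K → Derivation F S S)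
  (D : Fin K → (M →ₗ[F] M)), (∀ j (s : S) m, D j (s • m) = s • D j m + δ j s • m) →
  (∀ j m, pr (D j m) = δ j (pr m)) →
  ∃ (nM : PolynomialModule S M →+ PolynomialModule S M) (nS : Polynomial S →+ Polynomial S)
    (prt : PolynomialModule S M →ₗ[Polynomial S] Polynomial S),
    (∀ i m, prt (PolynomialModule.single S i m) = Polynomial.monomial i (pr m)) ∧
    (∀ (q : Polynomial S) m, nM (q • m) = nS q • m + q • nM m) ∧
    (∀ q q' : Polynomial S, nS (q * q') = nS q * q' + q * nS q') ∧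
    (∀ m, prt (nM m) = nS (prt m)) ∧ nS Polynomial.X = 1 ∧
    (∀ s : S, nS (Polynomial.C s) = - ∑ j : Fin K, Polynomial.C (δ j s) * Polynomial.X ^ (j : ℕ)) ∧
    ∀ m : M, nM (PolynomialModule.single S 0 m) = - ∑ j : Fin K, PolynomialModule.single S (j : ℕ) (D j m)

/-- the linear part of `f` -/
noncomputable def lin {F : Type} [Field F] {d : ℕ} (f : Fin d → Sy F d) (i : Fin d) : Sy F d :=
  homogeneousComponent 1 (f i)

/-- **G** (the main step, from O, DT, PM): lead's package. -/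
def S_G : Prop := ∀ (F : Type) [Field F] [CharZero F] (L : Type) [LieRing L] [LieAlgebra F L]
  [Module.Finite F L] (d : ℕ) (abL : L →ₗ[F] (Fin d → F)), IsAb abL →
  ∀ (ML MH : Type) [AddCommGroup ML] [Module F ML] [Module (Sy F d) ML]
  [IsScalarTower F (Sy F d) ML] [AddCommGroup MH] [Module F MH] [Module (Sy F d) MH]
  [IsScalarTower F (Sy F d) MH] (fL : Fox abL ML) (prH : MH →ₗ[Sy F d] Sy F d)
  (f f' : Fin d → Sy F d) (Φ : ML ≃ₗ[F] MH) (K : ℕ) (Y : ℕ → Fin d → Sy F d),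
  (∀ i, constantCoeff (f i) = 0) → (∀ i, aeval f' (f i) = X i) →
  (∀ (s : Sy F d) (m : ML), Φ (s • m) = aeval f s • Φ m) → (∀ m, prH (Φ m) = aeval f (fL.pr m)) →
  (∀ i, ∃ m, prH m = X i) →
  (∀ j, Lifts prH (Y j)) → (∀ j, K ≤ j → Y j = 0) →
  (∀ (i : Fin d) (j : ℕ), ((j : F) + 1) • homogeneousComponent (j + 2) (f i) =
      ∑ a ∈ Finset.range (j + 1), ∑ k, Y a k * pderiv k (homogeneousComponent (j - a + 1) (f i))) →
  ∃ Θ : L →ₗ[F] MH, (∀ x y, Θ ⁅x, y⁆ = aeval (lin f) (lf abL y) • Θ x - aeval (lin f) (lf abL x) • Θ y) ∧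
    (∀ x, prH (Θ x) = aeval (lin f) (lf abL x)) ∧ ∀ x, abL x = 0 → Θ x = 0 → fL.io x = 0

/-- **I** (the end).  From `Θ` to the isomorphism.  `L` metabelian and finite-dimensional, so `io_L` is injective.
`prH (Θ x)` is a linear form, so `Θ x - io h ∈ ker prH ⊆ io H` for an `h` with `abH h` its coordinates: `Θ L ⊆ io H`.
`Θ` is injective: `prH (Θ x) = 0` gives `abL x = 0` (the matrix of `lin f` is invertible: chain rule at `0` for
`aeval f (f' i) = X i`, or compare the components of degree 1).  `io H = {m | prH m` a linear form`}` has dimension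
`d + dim ker prH`, in the same way `dim L = dim io L = d + dim ker prL`, and `ker prL ≅ ker prH` by `Φ`.
So `dim L = dim io H ≤ dim H ≤ dim L` (last hypothesis; it says that `H` is finite-dimensional, too), so `io_H` is
injective and `Θ L = io H`; `θ = io_H⁻¹ ∘ Θ` is a Lie map: `io ⁅h,h'⁆ = prH(io h') io h - prH(io h) io h'` (h1, h2). -/
def S_I : Prop := ∀ (F : Type) [Field F] [CharZero F] (L H : Type) [LieRing L] [LieAlgebra F L]
  [Module.Finite F L] [LieRing H] [LieAlgebra F H] (d : ℕ) (abL : L →ₗ[F] (Fin d → F))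
  (abH : H →ₗ[F] (Fin d → F)), IsAb abL → IsAb abH → (∀ a b c e : L, ⁅⁅a, b⁆, ⁅c, e⁆⁆ = 0) →
  ∀ (ML MH : Type) [AddCommGroup ML] [Module F ML] [Module (Sy F d) ML]
  [IsScalarTower F (Sy F d) ML] [AddCommGroup MH] [Module F MH] [Module (Sy F d) MH]
  [IsScalarTower F (Sy F d) MH] (fL : Fox abL ML) (fH : Fox abH MH)
  (f f' : Fin d → Sy F d) (Φ : ML ≃ₗ[F] MH),
  (∀ i, constantCoeff (f i) = 0) → (∀ i, constantCoeff (f' i) = 0) →
  (∀ i, aeval f (f' i) = X i) → (∀ i, aeval f' (f i) = X i) →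
  (∀ m, fH.pr (Φ m) = aeval f (fL.pr m)) →
  (∀ (k : ℕ) (v : Fin k → H), LinearIndependent F v → k ≤ Module.finrank F L) →
  ∀ Θ : L →ₗ[F] MH, (∀ x y, Θ ⁅x, y⁆ = aeval (lin f) (lf abL y) • Θ x - aeval (lin f) (lf abL x) • Θ y) →
    (∀ x, fH.pr (Θ x) = aeval (lin f) (lf abL x)) → (∀ x, abL x = 0 → Θ x = 0 → fL.io x = 0) →
    Nonempty (L ≃ₗ⁅F⁆ H)

/-- the result -/
def S_R : Prop := ∀ (F : Type) [Field F] [CharZero F] (L : Type) [LieRing L] [LieAlgebra F L]
  [Module.Finite F L], (∀ a b c e : L, ⁅⁅a, b⁆, ⁅c, e⁆⁆ = 0) →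
  ∀ (H : Type) [LieRing H] [LieAlgebra F H],
    Nonempty (UniversalEnvelopingAlgebra F L ≃ₐ[F] UniversalEnvelopingAlgebra F H) →
    Nonempty (L ≃ₗ⁅F⁆ H)

end Pool.Agent.U337.EM
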