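import Pool.Agent.U337.EM.Stm

set_option autoImplicit false

/-!
Project EM, package G, part 1: generalities on `M[t]`.
-/

namespace Pool.Agent.U337.EM.GG

section gen

variable {F : Type} [Field F] {S M : Type} [CommRing S] [Algebra F S] [AddCommGroup M] [Module F M]
  [Module S M] [IsScalarTower F S M]

/-- `M[t]` as an `F[t]`-module -/
@[reducible] noncomputable def modT (F S M : Type) [Field F] [CommRing S] [Algebra F S] [AddCommGroup M]
    [Module S M] : Module (Polynomial F) (PolynomialModule S M) :=
  Module.compHom _ (Polynomial.mapRingHom (algebraMap F S))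

attribute [local instance] modT

lemma smulT (a : Polynomial F) (m : PolynomialModule S M) :
    a • m = (a.map (algebraMap F S)) • m := rfl

lemma eval_smulT (t : F) (a : Polynomial F) (m : PolynomialModule S M) :
    PolynomialModule.eval (algebraMap F S t) (a • m) =
      a.eval t • PolynomialModule.eval (algebraMap F S t) m := by
  rw [smulT, PolynomialModule.eval_smul, Polynomial.eval_map, Polynomial.eval₂_at_apply,
    algebraMap_smul]

lemma div (t : S) (m : PolynomialModule S M) : ∃ m', m = (Polynomial.X - Polynomial.C t) • m' +
    PolynomialModule.single S 0 (PolynomialModule.eval t m) := by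
  induction m using PolynomialModule.induction_linear with
  | zero => exact ⟨0, by simp⟩
  | add x y hx hy =>
    obtain ⟨x', hx⟩ := hx
    obtain ⟨y', hy⟩ := hy
    refine ⟨x' + y', ?_⟩
    conv_lhs => rw [hx, hy]
    rw [smul_add, map_add, PolynomialModule.single_add]
    abel
  | single n x =>
    have h : Polynomial.X - Polynomial.C t ∣ (Polynomial.X ^ n - Polynomial.C (t ^ n) : Polynomial S) := by
      rw [Polynomial.C_pow]
      exact sub_dvd_pow_sub_pow _ _ n
    obtain ⟨q, hq⟩ := h
    refine ⟨q • PolynomialModule.single S 0 x, ?_⟩
    rw [smul_smul, ← hq, sub_smul, PolynomialModule.eval_single]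
    have h1 : (Polynomial.X ^ n : Polynomial S) • PolynomialModule.single S 0 x =
        PolynomialModule.single S n x := by
      rw [← Polynomial.monomial_one_right_eq_X_pow, PolynomialModule.monomial_smul_single, add_zero, one_smul]
    have h2 : (Polynomial.C (t ^ n) : Polynomial S) • PolynomialModule.single S 0 x =
        PolynomialModule.single S 0 (t ^ n • x) := by
      rw [← Polynomial.monomial_zero_left, PolynomialModule.monomial_smul_single, add_zero]
    rw [h1, h2]
    abel

/-- the coordinate functions -/
noncomputable def cT (l : M →ₗ[F] F) : PolynomialModule S M →ₗ[Polynomial F] Polynomial F where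
  toFun m := m.coeff.sum fun i x => Polynomial.monomial i (l x)
  map_add' x y := by
    rw [PolynomialModule.coeff_add]
    exact Finsupp.sum_add_index' (fun i => by simp) (fun i a b => by simp)
  map_smul' a m := by
    have hs : ∀ (i : ℕ) (x : M), (PolynomialModule.single S i x).coeff.sum
        (fun i x => Polynomial.monomial i (l x)) = Polynomial.monomial i (l x) := by
      intro i x
      rw [PolynomialModule.coeff_single]
      exact Finsupp.sum_single_index (by simp)
    have hadd : ∀ x y : PolynomialModule S M, (x + y).coeff.sum
        (fun i x => Polynomial.monomial i (l x)) = x.coeff.sum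
        (fun i x => Polynomial.monomial i (l x)) + y.coeff.sum
        (fun i x => Polynomial.monomial i (l x)) := by
      intro x y
      rw [PolynomialModule.coeff_add]
      exact Finsupp.sum_add_index' (fun i => by simp) (fun i a b => by simp)
    rw [RingHom.id_apply]
    induction m using PolynomialModule.induction_linear with
    | zero => simp
    | add x y hx hy => rw [smul_add, hadd, hadd, hx, hy, smul_add]
    | single n x =>
      induction a using Polynomial.induction_on' with
      | add p q hp hq => rw [add_smul, hadd, hp, hq, add_smul]
      | monomial j c =>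
        rw [smulT, Polynomial.map_monomial, PolynomialModule.monomial_smul_single, hs, hs,
          algebraMap_smul, map_smul, smul_eq_mul, smul_eq_mul, Polynomial.monomial_mul_monomial]

lemma cT_single (l : M →ₗ[F] F) (i : ℕ) (x : M) :
    cT (S := S) l (PolynomialModule.single S i x) = Polynomial.monomial i (l x) := by
  change (PolynomialModule.single S i x).coeff.sum (fun i x => Polynomial.monomial i (l x)) = _
  rw [PolynomialModule.coeff_single]
  exact Finsupp.sum_single_index (by simp)

lemma cT_coeff (l : M →ₗ[F] F) (m : PolynomialModule S M) (i : ℕ) :
    (cT (S := S) l m).coeff i = l (m.coeff i) := by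
  induction m using PolynomialModule.induction_linear with
  | zero => simp
  | add x y hx hy =>
    rw [map_add, Polynomial.coeff_add, hx, hy, PolynomialModule.coeff_add, Finsupp.add_apply, map_add]
  | single n x =>
    rw [cT_single, Polynomial.coeff_monomial, PolynomialModule.coeff_single, Finsupp.single_apply]
    split_ifs <;> simp

lemma cT_eval (l : M →ₗ[F] F) (m : PolynomialModule S M) (t : F) :
    (cT (S := S) l m).eval t = l (PolynomialModule.eval (algebraMap F S t) m) := by
  induction m using PolynomialModule.induction_linear with
  | zero => simp
  | add x y hx hy => rw [map_add, Polynomial.eval_add, hx, hy, map_add, map_add]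
  | single n x =>
    rw [cT_single, Polynomial.eval_monomial, PolynomialModule.eval_single, ← map_pow, algebraMap_smul,
      map_smul, smul_eq_mul, mul_comm]

variable (pr : M →ₗ[S] S) (prt : PolynomialModule S M →ₗ[Polynomial S] Polynomial S)

lemma prt_coeff (h : ∀ i m, prt (PolynomialModule.single S i m) = Polynomial.monomial i (pr m))
    (m : PolynomialModule S M) (i : ℕ) : (prt m).coeff i = pr (m.coeff i) := by
  induction m using PolynomialModule.induction_linear with
  | zero => simp
  | add x y hx hy =>
    rw [map_add, Polynomial.coeff_add, hx, hy, PolynomialModule.coeff_add, Finsupp.add_apply, map_add]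
  | single n x =>
    rw [h, Polynomial.coeff_monomial, PolynomialModule.coeff_single, Finsupp.single_apply]
    split_ifs <;> simp

lemma prt_eval (h : ∀ i m, prt (PolynomialModule.single S i m) = Polynomial.monomial i (pr m))
    (m : PolynomialModule S M) (t : S) :
    pr (PolynomialModule.eval t m) = (prt m).eval t := by
  induction m using PolynomialModule.induction_linear with
  | zero => simp
  | add x y hx hy => rw [map_add, map_add, map_add, Polynomial.eval_add, hx, hy]
  | single n x =>
    rw [h, Polynomial.eval_monomial, PolynomialModule.eval_single, map_smul, smul_eq_mul, mul_comm]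

/-- the elements over `0` -/
noncomputable def At : Submodule (Polynomial F) (PolynomialModule S M) where
  carrier := {m | prt m = 0}
  zero_mem' := map_zero _
  add_mem' := by
    intro a b ha hb
    change prt (a + b) = 0
    rw [map_add, show prt a = 0 from ha, show prt b = 0 from hb, add_zero]
  smul_mem' := by
    intro c a ha
    change prt (c • a) = 0
    rw [smulT, map_smul, show prt a = 0 from ha, smul_zero]

lemma recon {r : ℕ} (α : Fin r → M) (l : Fin r → (M →ₗ[F] F))
    (hα : ∀ y, pr y = 0 → y = ∑ k, l k y • α k)
    (h : ∀ i m, prt (PolynomialModule.single S i m) = Polynomial.monomial i (pr m))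
    (m : PolynomialModule S M) (hm : prt m = 0) :
    m = ∑ k, cT (S := S) (l k) m • PolynomialModule.single S 0 (α k) := by
  apply PolynomialModule.coeff_injective
  ext i
  rw [PolynomialModule.coeff_sum, Finsupp.finsetSum_apply]
  have h1 : pr (m.coeff i) = 0 := by
    rw [← prt_coeff pr prt h, hm, Polynomial.coeff_zero]
  conv_lhs => rw [hα _ h1]
  refine Finset.sum_congr rfl fun k _ => ?_
  rw [smulT, PolynomialModule.smul_single_apply, if_pos (Nat.zero_le i), Nat.sub_zero,
    Polynomial.coeff_map, cT_coeff, algebraMap_smul]

lemma finite_At {r : ℕ} (α : Fin r → M) (l : Fin r → (M →ₗ[F] F))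
    (hα : ∀ y, pr y = 0 → y = ∑ k, l k y • α k) (hα0 : ∀ k, pr (α k) = 0)
    (h : ∀ i m, prt (PolynomialModule.single S i m) = Polynomial.monomial i (pr m)) :
    Module.Finite (Polynomial F) (At (F := F) prt) := by
  have h0 : ∀ k, PolynomialModule.single S 0 (α k) ∈ At (F := F) prt := by
    intro k
    change prt _ = 0
    rw [h, hα0, map_zero]
  refine Module.Finite.of_surjective
    (Fintype.linearCombination (Polynomial F) (fun k => (⟨_, h0 k⟩ : At (F := F) prt))) ?_
  rintro ⟨m, hm⟩
  refine ⟨fun k => cT (S := S) (l k) m, ?_⟩
  apply Subtype.ext
  rw [Fintype.linearCombination_apply]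
  simp only [Submodule.coe_sum, Submodule.coe_smul]
  exact (recon pr prt α l hα h m hm).symm

end gen

end Pool.Agent.U337.EM.GG
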