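import Pool.Agent.U337.EM.G1

set_option autoImplicit false
set_option linter.unusedSectionVars false

/-!
Project EM, package G, part 2: the family as a module with connection.
-/

namespace Pool.Agent.U337.EM.GG

attribute [local instance] modT

section main

variable {F : Type} [Field F] [CharZero F] {L : Type} [LieRing L] [LieAlgebra F L]
  {n : ℕ} (bas : Module.Basis (Fin n) F L) {S M : Type} [CommRing S] [IsDomain S] [Algebra F S]
  [AddCommGroup M] [Module F M] [Module S M] [IsScalarTower F S M]

/-- the extension of a family to `L` -/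
noncomputable def bx (b : Fin n → PolynomialModule S M) (x : L) : PolynomialModule S M :=
  ∑ a, (Polynomial.C (bas.repr x a) : Polynomial F) • b a

lemma bx_add (b : Fin n → PolynomialModule S M) (x y : L) : bx bas b (x + y) = bx bas b x + bx bas b y := by
  simp only [bx, map_add, Finsupp.add_apply, add_smul, Finset.sum_add_distrib]

lemma bx_smul (b : Fin n → PolynomialModule S M) (c : F) (x : L) :
    bx bas b (c • x) = (Polynomial.C c : Polynomial F) • bx bas b x := by
  simp only [bx, map_smul, Finsupp.smul_apply, smul_eq_mul, Polynomial.C_mul, mul_smul,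
    Finset.smul_sum]

lemma bx_bas (b : Fin n → PolynomialModule S M) (a : Fin n) : bx bas b (bas a) = b a := by
  unfold bx
  rw [Finset.sum_eq_single a]
  · rw [bas.repr_self, Finsupp.single_eq_same, Polynomial.C_1, one_smul]
  · intro c _ hc
    rw [bas.repr_self, Finsupp.single_eq_of_ne hc, Polynomial.C_0, zero_smul]
  · intro h
    exact absurd (Finset.mem_univ a) h

lemma bx_add' (b b' : Fin n → PolynomialModule S M) (x : L) :
    bx bas (b + b') x = bx bas b x + bx bas b' x := by
  simp only [bx, Pi.add_apply, smul_add, Finset.sum_add_distrib]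

lemma bx_smul' (c : Polynomial F) (b : Fin n → PolynomialModule S M) (x : L) :
    bx bas (c • b) x = c • bx bas b x := by
  simp only [bx, Pi.smul_apply, Finset.smul_sum]
  exact Finset.sum_congr rfl fun a _ => smul_comm _ _ _

lemma bx_eval (b : Fin n → PolynomialModule S M) (x : L) (t : F) :
    PolynomialModule.eval (algebraMap F S t) (bx bas b x) =
      ∑ a, bas.repr x a • PolynomialModule.eval (algebraMap F S t) (b a) := by
  simp only [bx, map_sum]
  refine Finset.sum_congr rfl fun a _ => ?_
  rw [eval_smulT, Polynomial.eval_C]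

variable (prt : PolynomialModule S M →ₗ[Polynomial S] Polynomial S) (g : L →ₗ[F] Polynomial S)

/-- the families over `lam * g` -/
noncomputable def PP : Submodule (Polynomial F) (Polynomial F × (Fin n → PolynomialModule S M)) where
  carrier := {p | ∀ a, prt (p.2 a) = p.1.map (algebraMap F S) * g (bas a)}
  zero_mem' := fun a => by simp
  add_mem' := by
    intro p q hp hq a
    simp only [Prod.snd_add, Pi.add_apply, map_add, hp a, hq a, Prod.fst_add, Polynomial.map_add]
    ring
  smul_mem' := by
    intro c p hp a
    simp only [Prod.smul_snd, Pi.smul_apply, Prod.smul_fst, smul_eq_mul, Polynomial.map_mul]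
    rw [smulT, map_smul, hp a, smul_eq_mul]
    ring

lemma prt_bx (p : PP bas prt g) (x : L) :
    prt (bx bas p.1.2 x) = p.1.1.map (algebraMap F S) * g x := by
  unfold bx
  rw [map_sum]
  have h1 : ∀ a, prt ((Polynomial.C (bas.repr x a) : Polynomial F) • p.1.2 a) =
      p.1.1.map (algebraMap F S) * g (bas.repr x a • bas a) := by
    intro a
    rw [smulT, map_smul, p.2 a, map_smul, Polynomial.map_C, smul_eq_mul, Algebra.smul_def,
      Polynomial.algebraMap_apply]
    ring
  rw [Finset.sum_congr rfl fun a _ => h1 a, ← Finset.mul_sum, ← map_sum, bas.sum_repr]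

variable (hg : ∀ x y : L, g ⁅x, y⁆ = 0)

/-- the equations -/
noncomputable def TT : PP bas prt g →ₗ[Polynomial F] (Fin n → Fin n → At (F := F) prt) where
  toFun p := fun a a' => ⟨bx bas p.1.2 ⁅bas a, bas a'⁆ - g (bas a') • p.1.2 a + g (bas a) • p.1.2 a', by
    change prt _ = 0
    rw [map_add, map_sub, prt_bx, hg, map_smul, map_smul, p.2 a, p.2 a']
    simp only [smul_eq_mul]
    ring⟩
  map_add' p q := by
    funext a a'
    apply Subtype.ext
    simp only [Submodule.coe_add, Pi.add_apply, Prod.snd_add, bx_add', smul_add]
    abel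
  map_smul' c p := by
    funext a a'
    apply Subtype.ext
    simp only [Submodule.coe_smul, Pi.smul_apply, Prod.smul_snd, bx_smul', RingHom.id_apply, smul_add,
      smul_sub]
    simp only [smulT, smul_smul, mul_comm]

variable (nM : PolynomialModule S M →+ PolynomialModule S M) (nS : Polynomial S →+ Polynomial S)
  (h1 : ∀ (q : Polynomial S) m, nM (q • m) = nS q • m + q • nM m)
  (h2 : ∀ q q' : Polynomial S, nS (q * q') = nS q * q' + q * nS q')
  (h3 : ∀ m, prt (nM m) = nS (prt m))
  (h4 : ∀ a : Polynomial F, nS (a.map (algebraMap F S)) = a.derivative.map (algebraMap F S))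
  (h5 : ∀ x, nS (g x) = 0)

include h1 h4 in
lemma nM_smul (a : Polynomial F) (m : PolynomialModule S M) :
    nM (a • m) = a.derivative • m + a • nM m := by
  rw [smulT, h1, h4]
  rfl

include h1 h4 in
lemma nM_bx (b : Fin n → PolynomialModule S M) (x : L) :
    nM (bx bas b x) = bx bas (fun a => nM (b a)) x := by
  simp only [bx, map_sum]
  refine Finset.sum_congr rfl fun a _ => ?_
  rw [nM_smul nM nS h1 h4, Polynomial.derivative_C, zero_smul, zero_add]

/-- the connection on the families -/
noncomputable def nP : PP bas prt g →+ PP bas prt g where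
  toFun p := ⟨(p.1.1.derivative, fun a => nM (p.1.2 a)), by
    intro a
    change prt (nM (p.1.2 a)) = _
    rw [h3, p.2 a, h2, h5, h4]
    ring⟩
  map_zero' := by
    apply Subtype.ext
    apply Prod.ext
    · simp
    · funext a
      simp
  map_add' p q := by
    apply Subtype.ext
    apply Prod.ext
    · simp
    · funext a
      simp

/-- the connection on the equations -/
noncomputable def nQ : (Fin n → Fin n → At (F := F) prt) →+ (Fin n → Fin n → At (F := F) prt) where
  toFun q := fun a a' => ⟨nM (q a a').1, by
    change prt (nM (q a a').1) = 0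
    rw [h3, show prt (q a a').1 = 0 from (q a a').2, map_zero]⟩
  map_zero' := by
    funext a a'
    apply Subtype.ext
    simp
  map_add' p q := by
    funext a a'
    apply Subtype.ext
    simp

include hg h1 h2 h3 h4 h5 in
/-- a solution at one point extends -/
theorem solve (hO : S_O) [Module.Finite (Polynomial F) (At (F := F) prt)] (t₀ : F) (p : PP bas prt g)
    (hp : ∀ a a', PolynomialModule.eval (algebraMap F S t₀) (TT bas prt g hg p a a').1 = 0) :
    ∃ p' : PP bas prt g, TT bas prt g hg p' = 0 ∧ p'.1.1.eval t₀ = p.1.1.eval t₀ ∧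
      ∀ a, PolynomialModule.eval (algebraMap F S t₀) (p'.1.2 a) =
        PolynomialModule.eval (algebraMap F S t₀) (p.1.2 a) := by
  have hq : ∀ a a', ∃ q : At (F := F) prt, TT bas prt g hg p a a' =
      (Polynomial.X - Polynomial.C t₀ : Polynomial F) • q := by
    intro a a'
    obtain ⟨m', hm'⟩ := div (algebraMap F S t₀) (TT bas prt g hg p a a').1
    rw [hp a a', PolynomialModule.single_zero, add_zero] at hm'
    have h6 : (TT bas prt g hg p a a').1 = (Polynomial.X - Polynomial.C t₀ : Polynomial F) • m' := by
      rw [smulT, Polynomial.map_sub, Polynomial.map_X, Polynomial.map_C]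
      exact hm'
    have h7 : prt m' = 0 := by
      have h8 : prt (TT bas prt g hg p a a').1 = 0 := (TT bas prt g hg p a a').2
      rw [hm', map_smul, smul_eq_mul] at h8
      exact (mul_eq_zero.1 h8).resolve_left (Polynomial.X_sub_C_ne_zero _)
    exact ⟨⟨m', h7⟩, Subtype.ext h6⟩
  choose q hq using hq
  obtain ⟨p', hp'⟩ := hO F (PP bas prt g) (Fin n → Fin n → At (F := F) prt) (TT bas prt g hg)
    (nP bas prt g nM nS h2 h3 h4 h5) (nQ prt nM nS h3)
    (by
      intro a p
      apply Subtype.ext
      apply Prod.ext
      · change Polynomial.derivative (a * p.1.1) = Polynomial.derivative a * p.1.1 + a * Polynomial.derivative p.1.1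
        rw [Polynomial.derivative_mul]
      · funext c
        exact nM_smul nM nS h1 h4 a _)
    (by
      intro a q
      funext c c'
      apply Subtype.ext
      exact nM_smul nM nS h1 h4 a _)
    (by
      intro p
      funext a a'
      apply Subtype.ext
      change bx bas (fun a => nM (p.1.2 a)) ⁅bas a, bas a'⁆ - g (bas a') • nM (p.1.2 a) +
        g (bas a) • nM (p.1.2 a') = nM (bx bas p.1.2 ⁅bas a, bas a'⁆ - g (bas a') • p.1.2 a +
        g (bas a) • p.1.2 a')
      rw [map_add, map_sub, h1, h1, h5, h5, zero_smul, zero_add, zero_smul, zero_add,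
        nM_bx bas nM nS h1 h4]) t₀ p q
    (by
      funext a a'
      exact hq a a')
  refine ⟨p - (Polynomial.X - Polynomial.C t₀) • p', hp', ?_, ?_⟩
  · change Polynomial.eval t₀ (p.1.1 - (Polynomial.X - Polynomial.C t₀) * p'.1.1) = _
    simp
  · intro a
    change PolynomialModule.eval (algebraMap F S t₀) (p.1.2 a - (Polynomial.X - Polynomial.C t₀ : Polynomial F) • p'.1.2 a) = _
    rw [map_sub, eval_smulT]
    simp

include h1 h2 h3 h4 h5 in
/-- the connection preserves the solutions -/
theorem nP_sol (p : PP bas prt g) (hp : TT bas prt g hg p = 0) :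
    TT bas prt g hg (nP bas prt g nM nS h2 h3 h4 h5 p) = 0 := by
  funext a a'
  apply Subtype.ext
  change bx bas (fun a => nM (p.1.2 a)) ⁅bas a, bas a'⁆ - g (bas a') • nM (p.1.2 a) +
        g (bas a) • nM (p.1.2 a') = 0
  have h6 : bx bas p.1.2 ⁅bas a, bas a'⁆ - g (bas a') • p.1.2 a + g (bas a) • p.1.2 a' = 0 :=
    congrArg Subtype.val (congrFun (congrFun hp a) a')
  have h7 := congrArg nM h6
  rw [map_add, map_sub, h1, h1, h5, h5, zero_smul, zero_add, zero_smul, zero_add,
        nM_bx bas nM nS h1 h4, map_zero] at h7
  exact h7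

end main

end Pool.Agent.U337.EM.GG
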