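import Pool.Agent.U337.EM.G2

set_option autoImplicit false
set_option linter.unusedSectionVars false

/-!
Project EM, package G, part 3: the ring side.
-/

namespace Pool.Agent.U337.EM.GG

open MvPolynomial

section ring

variable {F : Type} [Field F] [CharZero F] {d : ℕ}

/-- the family `f(tX)/t` -/
noncomputable def fam (f : Fin d → Sy F d) (i : Fin d) : Polynomial (Sy F d) :=
  ∑ j ∈ Finset.range ((f i).totalDegree + 1), Polynomial.monomial j (homogeneousComponent (j + 1) (f i))

lemma fam_coeff (f : Fin d → Sy F d) (i : Fin d) (j : ℕ) :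
    (fam f i).coeff j = homogeneousComponent (j + 1) (f i) := by
  unfold fam
  rw [Polynomial.finsetSum_coeff]
  simp only [Polynomial.coeff_monomial]
  rw [Finset.sum_ite_eq' (Finset.range ((f i).totalDegree + 1)) j]
  split_ifs with h
  · rfl
  · rw [Finset.mem_range, not_lt] at h
    exact (homogeneousComponent_eq_zero _ _ (by omega)).symm

lemma fam_eval_one (f : Fin d → Sy F d) (hf : ∀ i, constantCoeff (f i) = 0) (i : Fin d) :
    (fam f i).eval 1 = f i := by
  unfold fam
  rw [Polynomial.eval_finsetSum]
  simp only [Polynomial.eval_monomial, one_pow, mul_one]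
  rw [Finset.sum_range_succ, homogeneousComponent_eq_zero _ _ (Nat.lt_succ_self _), add_zero]
  conv_rhs => rw [← sum_homogeneousComponent (f i), Finset.sum_range_succ', homogeneousComponent_zero]
  have h0 : coeff 0 (f i) = 0 := hf i
  rw [h0, C_0, add_zero]

variable (Y : ℕ → Fin d → Sy F d)

/-- the derivation with the coefficients `Y j` -/
noncomputable def del (j : ℕ) : Derivation F (Sy F d) (Sy F d) := ∑ k, Y j k • pderiv k

lemma del_apply (j : ℕ) (s : Sy F d) : del Y j s = ∑ k, Y j k * pderiv k s := by
  have h := map_sum (Derivation.coeFnAddMonoidHom (R := F) (A := Sy F d) (M := Sy F d))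
    (fun k => Y j k • pderiv k) Finset.univ
  have h' := congrFun h s
  rw [Finset.sum_apply] at h'
  exact h'

variable (K : ℕ) (hK : ∀ j, K ≤ j → Y j = 0) (nS : Polynomial (Sy F d) →+ Polynomial (Sy F d))
  (h2 : ∀ q q', nS (q * q') = nS q * q' + q * nS q') (hX : nS Polynomial.X = 1)
  (hC : ∀ s, nS (Polynomial.C s) = - ∑ j : Fin K, Polynomial.C (del Y j s) * Polynomial.X ^ (j : ℕ))

include hK hC in
lemma nS_C_coeff (s : Sy F d) (l : ℕ) : (nS (Polynomial.C s)).coeff l = - del Y l s := by
  rw [hC, Polynomial.coeff_neg, Polynomial.finsetSum_coeff]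
  congr 1
  simp only [Polynomial.coeff_C_mul_X_pow]
  by_cases hl : l < K
  · rw [Finset.sum_eq_single (⟨l, hl⟩ : Fin K)]
    · simp
    · intro b _ hb
      rw [if_neg]
      intro h
      apply hb
      exact Fin.ext h.symm
    · intro h
      exact absurd (Finset.mem_univ _) h
  · have h0 : del Y l s = 0 := by
      rw [del_apply, hK l (not_lt.1 hl)]
      simp
    rw [h0]
    apply Finset.sum_eq_zero
    intro b _
    rw [if_neg]
    intro h
    exact hl (h ▸ b.2)

include h2 hX in
lemma nS_X_pow (n : ℕ) : nS (Polynomial.X ^ n) = Polynomial.derivative (Polynomial.X ^ n) := by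
  induction n with
  | zero =>
    have h := h2 1 1
    rw [mul_one, mul_one, one_mul] at h
    have h' : nS 1 = 0 := by
      have := congrArg (fun z => z - nS 1) h
      simpa using this.symm
    rw [pow_zero, h', Polynomial.derivative_one]
  | succ n ih =>
    rw [pow_succ, h2, ih, hX, Polynomial.derivative_mul, Polynomial.derivative_X]

include hK h2 hX hC in
lemma nS_map (a : Polynomial F) :
    nS (a.map (algebraMap F (Sy F d))) = a.derivative.map (algebraMap F (Sy F d)) := by
  induction a using Polynomial.induction_on' with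
  | add p q hp hq => rw [Polynomial.map_add, map_add, hp, hq, Polynomial.derivative_add, Polynomial.map_add]
  | monomial n c =>
    have h0 : nS (Polynomial.C (algebraMap F (Sy F d) c)) = 0 := by
      ext l
      rw [nS_C_coeff Y K hK nS hC, Derivation.map_algebraMap, neg_zero, Polynomial.coeff_zero]
    rw [Polynomial.map_monomial, ← Polynomial.C_mul_X_pow_eq_monomial, h2, h0, zero_mul, zero_add,
      nS_X_pow nS h2 hX, ← Polynomial.derivative_map, Polynomial.map_monomial,
      ← Polynomial.C_mul_X_pow_eq_monomial, Polynomial.derivative_C_mul]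

include hK h2 hX hC in
lemma nS_monomial_coeff (n : ℕ) (s : Sy F d) (j : ℕ) :
    (nS (Polynomial.monomial n s)).coeff j = (if n ≤ j then - del Y (j - n) s else 0) +
      (if n = j + 1 then ((j : Sy F d) + 1) * s else 0) := by
  rw [← Polynomial.C_mul_X_pow_eq_monomial, h2, nS_X_pow nS h2 hX, Polynomial.coeff_add,
    Polynomial.coeff_mul_X_pow']
  congr 1
  · simp only [nS_C_coeff Y K hK nS hC]
  · rw [Polynomial.coeff_C_mul, Polynomial.coeff_derivative, Polynomial.coeff_X_pow]
    by_cases h : n = j + 1
    · rw [if_pos h.symm, if_pos h]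
      ring
    · rw [if_neg (fun h' => h h'.symm), if_neg h]
      ring

include hK h2 hX hC in
lemma nS_fam (f : Fin d → Sy F d)
    (hY : ∀ (i : Fin d) (j : ℕ), ((j : F) + 1) • homogeneousComponent (j + 2) (f i) =
      ∑ a ∈ Finset.range (j + 1), ∑ k, Y a k * pderiv k (homogeneousComponent (j - a + 1) (f i)))
    (i : Fin d) : nS (fam f i) = 0 := by
  ext1 j
  have hN : fam f i = ∑ n ∈ Finset.range ((f i).totalDegree + 1 + (j + 2)),
      Polynomial.monomial n (homogeneousComponent (n + 1) (f i)) := by
    unfold fam
    refine Finset.sum_subset (Finset.range_subset_range.2 (Nat.le_add_right _ _)) ?_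
    intro n _ hn
    rw [Finset.mem_range, not_lt] at hn
    rw [homogeneousComponent_eq_zero _ _ (by omega), map_zero]
  rw [hN, map_sum, Polynomial.finsetSum_coeff]
  simp only [nS_monomial_coeff Y K hK nS h2 hX hC]
  rw [Finset.sum_add_distrib, Polynomial.coeff_zero]
  have e1 : ∑ n ∈ Finset.range ((f i).totalDegree + 1 + (j + 2)),
      (if n = j + 1 then ((j : Sy F d) + 1) * homogeneousComponent (n + 1) (f i) else 0) =
      ((j : Sy F d) + 1) * homogeneousComponent (j + 2) (f i) := by
    rw [Finset.sum_ite_eq' _ (j + 1), if_pos]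
    rw [Finset.mem_range]
    omega
  have e2 : ∑ n ∈ Finset.range ((f i).totalDegree + 1 + (j + 2)),
      (if n ≤ j then - del Y (j - n) (homogeneousComponent (n + 1) (f i)) else 0) =
      - ∑ a ∈ Finset.range (j + 1), ∑ k, Y a k * pderiv k (homogeneousComponent (j - a + 1) (f i)) := by
    rw [← Finset.sum_filter]
    have hfil : (Finset.range ((f i).totalDegree + 1 + (j + 2))).filter (fun n => n ≤ j) =
        Finset.range (j + 1) := by
      ext n
      simp only [Finset.mem_filter, Finset.mem_range]
      omega
    rw [hfil, ← Finset.sum_range_reflect, ← Finset.sum_neg_distrib]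
    refine Finset.sum_congr rfl fun a ha => ?_
    rw [Finset.mem_range] at ha
    have h3 : j + 1 - 1 - a = j - a := by omega
    have h4 : j - (j - a) = a := by omega
    rw [h3, h4, del_apply]
  rw [e1, e2, ← hY]
  have h5 : ((j : F) + 1) • homogeneousComponent (j + 2) (f i) =
      ((j : Sy F d) + 1) * homogeneousComponent (j + 2) (f i) := by
    rw [Algebra.smul_def, map_add, map_natCast, map_one]
  rw [h5]
  ring

include hK h2 hX hC in
lemma nS_aeval (f : Fin d → Sy F d)
    (hY : ∀ (i : Fin d) (j : ℕ), ((j : F) + 1) • homogeneousComponent (j + 2) (f i) =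
      ∑ a ∈ Finset.range (j + 1), ∑ k, Y a k * pderiv k (homogeneousComponent (j - a + 1) (f i)))
    (s : Sy F d) : nS (aeval (fam f) s) = 0 := by
  induction s using MvPolynomial.induction_on with
  | C c =>
    have h : aeval (fam f) (C c : Sy F d) = (Polynomial.C c : Polynomial F).map (algebraMap F (Sy F d)) := by
      rw [Polynomial.map_C, aeval_C, Polynomial.algebraMap_apply]
    rw [h, nS_map Y K hK nS h2 hX hC, Polynomial.derivative_C, Polynomial.map_zero]
  | add p q hp hq => rw [map_add, map_add, hp, hq, add_zero]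
  | mul_X p i hp =>
    rw [map_mul, aeval_X, h2, hp, nS_fam Y K hK nS h2 hX hC f hY, zero_mul, mul_zero, add_zero]

end ring

end Pool.Agent.U337.EM.GG
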