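import Pool.Agent.U337.EM.TD

/-!
# Project EM, package C: transfer of semilinear maps along an isomorphism of enveloping algebras
-/

set_option autoImplicit false
set_option maxHeartbeats 4000000

open MvPolynomial

namespace Pool.Agent.U337.EM.T669

open Pool.Agent.U337.EM

attribute [local instance 100] LieRing.ofAssociativeRing

section main

variable {F : Type} [Field F] {L H : Type} [LieRing L] [LieAlgebra F L] [LieRing H] [LieAlgebra F H]
  {d : ℕ} {ML MH : Type} [AddCommGroup ML] [Module F ML] [Module (Sy F d) ML]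
  [IsScalarTower F (Sy F d) ML] [AddCommGroup MH] [Module F MH] [Module (Sy F d) MH]
  [IsScalarTower F (Sy F d) MH]


/-- the linear part: lifting of vector fields -/
theorem lifting (hA : S_A) {abL : L →ₗ[F] (Fin d → F)} {abH : H →ₗ[F] (Fin d → F)} (hL : IsAb abL)
    (hH : IsAb abH) {w : Fin d → L} (hw : ∀ i, abL (w i) = Pi.single i 1)
    (φ : UniversalEnvelopingAlgebra F L ≃ₐ[F] UniversalEnvelopingAlgebra F H)
    {bar : UniversalEnvelopingAlgebra F H →ₐ[F] Sy F d} (hbar : ∀ h, bar (UniversalEnvelopingAlgebra.ι F h) = lf abH h)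
    (fL : Fox abL ML) (fH : Fox abH MH) (x ξ Y : Fin d → Sy F d)
    (hY : ∀ i, ∑ k, aeval (fun l => x l + X l) (pderiv k (bar (φ (UniversalEnvelopingAlgebra.ι F (w i))))) * Y k =
      ∑ k, (aeval (fun l => x l + X l) (pderiv k (bar (φ (UniversalEnvelopingAlgebra.ι F (w i))))) -
        aeval x (pderiv k (bar (φ (UniversalEnvelopingAlgebra.ι F (w i)))))) * ξ k) : Lifts fH.pr Y := by
  set g : Fin d → Sy F d := fun i => bar (φ (UniversalEnvelopingAlgebra.ι F (w i))) with hg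
  -- the points
  set a₁ : Fin d → DS F d := fun i => TrivSqZeroExt.inl (x i) + TrivSqZeroExt.inr (ξ i) with ha₁
  set b₁ : Fin d → DS F d := fun i => TrivSqZeroExt.inl (x i + X i) + TrivSqZeroExt.inr (ξ i)
    with hb₁
  set a₂ : Fin d → DS F d := fun i => TrivSqZeroExt.inl (x i) with ha₂
  set b₂ : Fin d → DS F d := fun i => TrivSqZeroExt.inl (x i + X i) + TrivSqZeroExt.inr (Y i)
    with hb₂
  have a₁f : ∀ i, (a₁ i).fst = x i := fun i => by simp [ha₁]
  have a₁s : ∀ i, (a₁ i).snd = ξ i := fun i => by simp [ha₁]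
  have b₁f : ∀ i, (b₁ i).fst = x i + X i := fun i => by simp [hb₁]
  have b₁s : ∀ i, (b₁ i).snd = ξ i := fun i => by simp [hb₁]
  have a₂f : ∀ i, (a₂ i).fst = x i := fun i => by simp [ha₂]
  have a₂s : ∀ i, (a₂ i).snd = 0 := fun i => by simp [ha₂]
  have b₂f : ∀ i, (b₂ i).fst = x i + X i := fun i => by simp [hb₂]
  have b₂s : ∀ i, (b₂ i).snd = Y i := fun i => by simp [hb₂]
  obtain ⟨χ₁, hχ₁⟩ := exists_char hH a₁
  obtain ⟨θ₁, hθ₁⟩ := exists_char hH b₁
  obtain ⟨χ₂, hχ₂⟩ := exists_char hH a₂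
  obtain ⟨θ₂, hθ₂⟩ := exists_char hH b₂
  obtain ⟨cx, hcx⟩ := exists_char hH x
  obtain ⟨cy, hcy⟩ := exists_char hH (fun i => x i + X i)
  -- first transfer
  have hj : ∀ (s : Sy F d) (m : MH), j1 (F := F) (s • m) =
      aeval (fun i => b₁ i - a₁ i) s • j1 (F := F) m := by
    intro s m
    have e0 : ∀ i, (b₁ i - a₁ i).fst = X i := fun i => by
      rw [TrivSqZeroExt.fst_sub, a₁f, b₁f]; ring
    have e1 : (aeval (fun i => b₁ i - a₁ i) s).fst = s := by
      rw [fst_aeval]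
      simp only [e0]
      exact aeval_X_left_apply s
    have e2 : (aeval (fun i => b₁ i - a₁ i) s).snd = 0 := by
      rw [snd_aeval]
      refine Finset.sum_eq_zero fun k _ => ?_
      rw [TrivSqZeroExt.snd_sub, a₁s, b₁s, sub_self, mul_zero]
    rw [ds_smul (F := F), e1, e2]
    show (s • m, (0 : MH)) = (s • m, s • (0 : MH) + (0 : Sy F d) • m)
    rw [smul_zero, zero_smul, add_zero]
  obtain ⟨δ₁, β', d1, d2, d3, d4⟩ := fwd hA hL hw φ hbar fL fH hχ₁ hθ₁ hj
  -- the two differences agree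
  have hκ : ∀ i, aeval b₁ (g i) - aeval a₁ (g i) = aeval b₂ (g i) - aeval a₂ (g i) := by
    intro i
    refine TrivSqZeroExt.ext ?_ ?_
    · rw [TrivSqZeroExt.fst_sub, TrivSqZeroExt.fst_sub, fst_aeval, fst_aeval, fst_aeval, fst_aeval]
      simp only [a₁f, a₂f, b₁f, b₂f]
    · rw [TrivSqZeroExt.snd_sub, TrivSqZeroExt.snd_sub, snd_aeval, snd_aeval, snd_aeval, snd_aeval]
      simp only [a₁f, a₂f, b₁f, b₂f, a₁s, a₂s, b₁s, b₂s, mul_zero, Finset.sum_const_zero, sub_zero]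
      rw [hY i, ← Finset.sum_sub_distrib]
      exact Finset.sum_congr rfl fun k _ => by ring
  have d4' : ∀ (s : Sy F d) (m : ML), β' (s • m) =
      aeval (fun i => aeval b₂ (g i) - aeval a₂ (g i)) s • β' m := by
    intro s m
    have := d4 s m
    simp only [← hκ]
    exact this
  obtain ⟨δ₂, β₂, e1, e2, e3, e4⟩ := bwd hA hL hw φ hbar fL fH hχ₂ hθ₂ d4'
  set κ : Fin d → DS F d := fun i => b₂ i - a₂ i with hκdef
  have κf : ∀ i, (κ i).fst = X i := fun i => by
    rw [hκdef]; simp only [TrivSqZeroExt.fst_sub, a₂f, b₂f]; ring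
  have κs : ∀ i, (κ i).snd = Y i := fun i => by
    rw [hκdef]; simp only [TrivSqZeroExt.snd_sub, a₂s, b₂s]; ring
  have Kf : ∀ s : Sy F d, (aeval κ s).fst = s := fun s => by
    rw [fst_aeval]
    simp only [κf]
    exact aeval_X_left_apply s
  have Ks : ∀ s : Sy F d, (aeval κ s).snd = ∑ k, Y k * pderiv k s := fun s => by
    rw [snd_aeval]
    simp only [κf, κs]
    refine Finset.sum_congr rfl fun k _ => ?_
    rw [show aeval (fun i => (X i : Sy F d)) (pderiv k s) = pderiv k s from aeval_X_left_apply _]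
    ring
  -- the first components
  have hf : ∀ (c : UniversalEnvelopingAlgebra F H →ₐ[F] DS F d) (q : Fin d → DS F d)
      (_ : ∀ h, c (UniversalEnvelopingAlgebra.ι F h) = aeval q (lf abH h)) (q' : Fin d → Sy F d) (_ : ∀ i, (q i).fst = q' i)
      (c' : UniversalEnvelopingAlgebra F H →ₐ[F] Sy F d)
      (_ : ∀ h, c' (UniversalEnvelopingAlgebra.ι F h) = aeval q' (lf abH h)),
      (TrivSqZeroExt.fstHom F (Sy F d) (Sy F d)).comp c = c' := by
    intro c q hc q' hq c' hc'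
    apply char_ext
    intro h
    rw [hc', AlgHom.comp_apply, hc]
    show (aeval q (lf abH h)).fst = _
    rw [fst_aeval]
    simp only [hq]
  have hP1 : ∀ (b : DS F d) (n : E2 MH), p1 (F := F) (b • n) =
      (TrivSqZeroExt.fstHom F (Sy F d) (Sy F d)) b • p1 (F := F) n := fun b n => rfl
  have g1 := der_semi d1 hP1
  have g2 := der_semi e1 hP1
  rw [hf χ₁ a₁ hχ₁ x a₁f cx hcx, hf θ₁ b₁ hθ₁ _ b₁f cy hcy] at g1
  rw [hf χ₂ a₂ hχ₂ x a₂f cx hcx, hf θ₂ b₂ hθ₂ _ b₂f cy hcy] at g2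
  have hfst : p1 (F := F) ∘ₗ δ₁ = p1 (F := F) ∘ₗ δ₂ := by
    refine der_ext_phi hA φ g1 g2 fun y => ?_
    rw [LinearMap.comp_apply, LinearMap.comp_apply, e2, d3]
  have hβ₂f : ∀ m : MH, p1 (F := F) (β₂ m) = m := by
    intro m
    have := fox_ext fH (κ := (X : Fin d → Sy F d)) (β := ((p1 (F := F) ∘ₗ β₂).toAddMonoidHom))
      (β' := AddMonoidHom.id MH) (fun s m => ?_) (fun s m => ?_) (fun h => ?_) m
    · exact this
    · show p1 (F := F) (β₂ (s • m)) = aeval X s • p1 (F := F) (β₂ m)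
      rw [e4, p1_smul, Kf, aeval_X_left_apply]
    · show s • m = aeval X s • m
      rw [aeval_X_left_apply]
    · show p1 (F := F) (β₂ (fH.io h)) = fH.io h
      rw [e3]
      have h1 := LinearMap.congr_fun hfst (UniversalEnvelopingAlgebra.ι F h)
      rw [LinearMap.comp_apply, LinearMap.comp_apply, d2] at h1
      rw [← h1]
      rfl
  -- the linear form
  have hPd : ∀ (c₁ c₂ : UniversalEnvelopingAlgebra F H →ₐ[F] DS F d)
      (δ : UniversalEnvelopingAlgebra F H →ₗ[F] E2 MH) (_ : IsDer c₁ c₂ δ),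
      IsDer c₁ c₂ (P2 fH.pr ∘ₗ δ) := by
    intro c₁ c₂ δ hδ
    exact der_semi hδ (ψ := AlgHom.id F (DS F d)) (P := P2 fH.pr) fun b n => P2_smul fH.pr b n
  have hQ1 : P2 fH.pr ∘ₗ δ₁ = θ₁.toLinearMap - χ₁.toLinearMap := by
    refine der_ext hA (hPd _ _ _ d1) (diff_der χ₁ θ₁) fun h => ?_
    rw [LinearMap.comp_apply, d2, LinearMap.sub_apply, AlgHom.toLinearMap_apply,
      AlgHom.toLinearMap_apply, hχ₁, hθ₁, ← aeval_sub']
    refine TrivSqZeroExt.ext ?_ ?_
    · rw [P2_fst, fst_aeval]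
      have e0 : ∀ i, (b₁ i - a₁ i).fst = X i := fun i => by
        rw [TrivSqZeroExt.fst_sub, a₁f, b₁f]; ring
      simp only [e0]
      show fH.pr (fH.io h) = aeval X (lf abH h)
      rw [fH.h1, aeval_X_left_apply]
    · rw [P2_snd, snd_aeval]
      have e0 : ∀ i, (b₁ i - a₁ i).snd = 0 := fun i => by
        rw [TrivSqZeroExt.snd_sub, a₁s, b₁s]; ring
      simp only [e0, mul_zero, Finset.sum_const_zero]
      show fH.pr (0 : MH) = 0
      exact map_zero _
  have hQ2 : P2 fH.pr ∘ₗ δ₂ = θ₂.toLinearMap - χ₂.toLinearMap := by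
    refine der_ext_phi hA φ (hPd _ _ _ e1) (diff_der χ₂ θ₂) fun y => ?_
    have h1 := LinearMap.congr_fun hQ1 (φ (UniversalEnvelopingAlgebra.ι F y))
    rw [LinearMap.comp_apply, ← d3, ← e2, LinearMap.sub_apply, AlgHom.toLinearMap_apply,
      AlgHom.toLinearMap_apply, char_phi hL hw φ hbar hχ₁, char_phi hL hw φ hbar hθ₁,
      ← aeval_sub'] at h1
    rw [LinearMap.comp_apply, h1, LinearMap.sub_apply, AlgHom.toLinearMap_apply,
      AlgHom.toLinearMap_apply, char_phi hL hw φ hbar hχ₂, char_phi hL hw φ hbar hθ₂,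
      ← aeval_sub']
    exact congrArg (fun κ' : Fin d → DS F d => aeval κ' (lf abL y)) (funext hκ)
  have hPβ : ∀ m : MH, P2 fH.pr (β₂ m) = aeval κ (fH.pr m) := by
    intro m
    have := fox_ext fH (κ := κ) (β := ((P2 fH.pr ∘ₗ β₂).toAddMonoidHom))
      (β' := ((aeval κ : Sy F d →ₐ[F] DS F d) : Sy F d →+ DS F d).comp fH.pr.toAddMonoidHom)
      (fun s m => ?_) (fun s m => ?_) (fun h => ?_) m
    · exact this
    · show P2 fH.pr (β₂ (s • m)) = aeval κ s • P2 fH.pr (β₂ m)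
      rw [e4, P2_smul]
    · show aeval κ (fH.pr (s • m)) = aeval κ s • aeval κ (fH.pr m)
      rw [map_smul, smul_eq_mul, map_mul, smul_eq_mul]
    · show P2 fH.pr (β₂ (fH.io h)) = aeval κ (fH.pr (fH.io h))
      have h1 := LinearMap.congr_fun hQ2 (UniversalEnvelopingAlgebra.ι F h)
      rw [LinearMap.comp_apply, LinearMap.sub_apply, AlgHom.toLinearMap_apply,
        AlgHom.toLinearMap_apply, hχ₂, hθ₂, ← aeval_sub'] at h1
      rw [e3, h1, fH.h1]
  refine ⟨p2 (F := F) ∘ₗ β₂, fun s m => ?_, fun m => ?_⟩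
  · show p2 (F := F) (β₂ (s • m)) = s • p2 (F := F) (β₂ m) + _
    rw [e4, p2_smul, Kf, Ks, hβ₂f]
  · show fH.pr (p2 (F := F) (β₂ m)) = _
    rw [← P2_snd, hPβ, Ks]

end main

end Pool.Agent.U337.EM.T669
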